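import Pool.Agent.helper36.PT.Spec

set_option autoImplicit false

namespace Pool.Agent.PT

open Finset Pool.Agent.helper71.AA

lemma BLK_Kr_sub {H L : ℕ} (h : H ≤ L) : Kr H ⊆ Kr L := by
  intro k hk
  unfold Kr at hk ⊢
  rw [mem_erase, mem_Icc] at hk ⊢
  refine ⟨hk.1, ?_, ?_⟩
  · have : (H : ℤ) ≤ L := by exact_mod_cast h
    linarith [hk.2.1]
  · have : (H : ℤ) ≤ L := by exact_mod_cast h
    linarith [hk.2.2]

lemma BLK_Fr (N : ℝ) (m H : ℕ) (c : ℤ) (hN : 1 ≤ N) (hm : 0 < m) (hH : (m : ℝ) ≤ N * (H + 1)) :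
    Fr N m c = ∑ k ∈ Kr H, (wk N k m : ℂ) * ef (k * c / m) := by
  have hm0 : (0 : ℝ) < m := by exact_mod_cast hm
  have key : ∀ M : ℕ, (m : ℝ) ≤ N * (M + 1) → ∀ L : ℕ, M ≤ L →
      ∑ k ∈ Kr M, (wk N k m : ℂ) * ef (k * c / m) = ∑ k ∈ Kr L, (wk N k m : ℂ) * ef (k * c / m) := by
    intro M hM L hL
    refine sum_subset (BLK_Kr_sub hL) fun k hk hk' => ?_
    have h0 : k ≠ 0 := (mem_erase.1 hk).1
    have h1 : (M : ℤ) + 1 ≤ |k| := by
      by_contra h2
      apply hk'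
      unfold Kr
      rw [mem_erase, mem_Icc]
      have h3 : |k| ≤ M := by omega
      exact ⟨h0, (abs_le.1 h3).1, (abs_le.1 h3).2⟩
    have h2 : (M : ℝ) + 1 ≤ |(k : ℝ)| := by exact_mod_cast h1
    rw [wk_zero N k m hm0 (hM.trans (mul_le_mul_of_nonneg_left h2 (by linarith))) (by linarith)]
    simp
  have e1 : Fr N m c = ∑ k ∈ Kr m, (wk N k m : ℂ) * ef (k * c / m) := rfl
  rw [e1, key m (by nlinarith) (max m H) (le_max_left _ _), key H hH (max m H) (le_max_right _ _)]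

lemma BLK_wk (N : ℝ) (hN : 0 < N) (k : ℤ) (m₀ m : ℝ) (hm₀ : 0 < m₀) (hm : m₀ ≤ m) :
    0 ≤ wk N k m ∧ wk N k m ≤ N / m₀ := by
  unfold wk
  have hm' : 0 < m := by linarith
  constructor
  · exact mul_nonneg (by positivity) (Tri_nonneg _)
  · calc N / m * Tri (N * k / m) ≤ N / m * 1 :=
        mul_le_mul_of_nonneg_left (Tri_le _) (by positivity)
      _ = N / m := mul_one _
      _ ≤ N / m₀ := div_le_div_of_nonneg_left hN.le hm₀ hm

lemma BLK_conj (x : ℝ) : (starRingEnd ℂ) (ef x) = ef (-x) := by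
  unfold ef
  rw [← Complex.exp_conj]
  congr 1
  rw [map_mul, map_mul, map_mul, Complex.conj_ofReal, Complex.conj_ofReal, Complex.conj_I]
  rw [map_ofNat]
  push_cast
  ring

/-- the summands -/
noncomputable def BLK_u (N : ℝ) (W q : ℕ) (γ : ℕ → ℕ → ℝ) (c : ℕ → ℕ → ℕ → ℤ) (d e : ℕ)
    (i : ℕ × ℤ) : ℂ :=
  if e.Coprime (q * W * (d * i.1)) then
    ((γ d i.1 * wk N i.2 (W * d * i.1 * e) : ℝ) : ℂ) * ef (i.2 * c d i.1 e / (W * d * i.1 * e)) else 0

lemma BLK_cop (q W d d₂ d₂' e : ℕ) :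
    e.Coprime (q * W * (d * d₂.lcm d₂')) ↔ e.Coprime (q * W * (d * d₂)) ∧ e.Coprime (q * W * (d * d₂')) := by
  constructor
  · intro h
    constructor
    · exact Nat.Coprime.coprime_dvd_right (mul_dvd_mul_left _ (mul_dvd_mul_left _ (Nat.dvd_lcm_left _ _))) h
    · exact Nat.Coprime.coprime_dvd_right (mul_dvd_mul_left _ (mul_dvd_mul_left _ (Nat.dvd_lcm_right _ _))) h
  · rintro ⟨h1, h2⟩
    have a1 : e.Coprime (q * W) := Nat.Coprime.coprime_mul_right_right h1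
    have a2 : e.Coprime (d * d₂) := Nat.Coprime.coprime_mul_left_right h1
    have a3 : e.Coprime (d * d₂') := Nat.Coprime.coprime_mul_left_right h2
    have a4 : e.Coprime d := Nat.Coprime.coprime_mul_right_right a2
    have a5 : e.Coprime d₂ := Nat.Coprime.coprime_mul_left_right a2
    have a6 : e.Coprime d₂' := Nat.Coprime.coprime_mul_left_right a3
    refine a1.mul_right (a4.mul_right ?_)
    exact Nat.Coprime.coprime_dvd_right (Nat.lcm_dvd (Dvd.intro _ rfl) (Dvd.intro_left _ rfl))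
      (a5.mul_right a6)

theorem BLK (h1 : OFE_stmt) (h2 : GCS_stmt) (h3 : DGN_stmt) (h4 : CAU_stmt) : BLK_stmt := by
  intro eps heps W hW
  have he4 : 0 < eps / 4 := by positivity
  obtain ⟨C1, hC1, hofe⟩ := h1 (eps / 4) he4 W hW
  obtain ⟨C2, hC2, hgcs⟩ := h2 (eps / 4) he4
  obtain ⟨C3, hC3, hdgn⟩ := h3 (eps / 4) he4
  have hWr : (1 : ℝ) ≤ W := by exact_mod_cast hW
  refine ⟨(8 * C3 + 192 * C1 * C2) * (16 * W) ^ (eps / 4), by positivity, ?_⟩
  intro X N hX hXN hN2 p q hp hq hpq hpW hqW a₀ A B E hA hB hE hAX hBX hEX γ β c hγ hβ hγ' hβ' hc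
  have hN1 : 1 ≤ N := by linarith
  have hN : 0 < N := by linarith
  have hAr : (1 : ℝ) ≤ A := by exact_mod_cast hA
  have hBr : (1 : ℝ) ≤ B := by exact_mod_cast hB
  have hEr : (1 : ℝ) ≤ E := by exact_mod_cast hE
  have hqr : (2 : ℝ) ≤ q := by exact_mod_cast hq.two_le
  have hpr : (2 : ℝ) ≤ p := by exact_mod_cast hp.two_le
  obtain ⟨H, hH⟩ : ∃ H : ℕ, H = ⌊8 * (W : ℝ) * A * B * E / N⌋₊ := ⟨_, rfl⟩
  have hHle : (H : ℝ) ≤ 8 * (W : ℝ) * A * B * E / N := by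
    rw [hH]; exact Nat.floor_le (by positivity)
  have hHlt : 8 * (W : ℝ) * A * B * E / N < H + 1 := by
    rw [hH]; exact Nat.lt_floor_add_one _
  have hHN : 8 * (W : ℝ) * A * B * E ≤ N * (H + 1) := by
    rw [div_lt_iff₀ hN] at hHlt
    linarith
  obtain ⟨w₀, hw₀⟩ : ∃ w₀ : ℝ, w₀ = N / (W * A * B * E) := ⟨_, rfl⟩
  have hw₀0 : 0 < w₀ := by rw [hw₀]; positivity
  have hHw : H * w₀ ≤ 8 := by
    rw [hw₀]
    calc (H : ℝ) * (N / (W * A * B * E)) ≤ 8 * (W : ℝ) * A * B * E / N * (N / (W * A * B * E)) :=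
          mul_le_mul_of_nonneg_right hHle (by positivity)
      _ = 8 := by field_simp
  have hwN : A * B * E * w₀ ≤ N := by
    rw [hw₀]
    calc (A : ℝ) * B * E * (N / (W * A * B * E)) = N / W := by field_simp
      _ ≤ N / 1 := div_le_div_of_nonneg_left hN.le (by norm_num) hWr
      _ = N := div_one N
  obtain ⟨Y, hY⟩ : ∃ Y : ℝ, Y = 16 * W * X ^ 3 := ⟨_, rfl⟩
  have hX0 : 0 < X := by linarith
  have hX3 : X ≤ X ^ 3 := by
    calc X = X ^ 1 := (pow_one X).symm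
      _ ≤ X ^ 3 := pow_le_pow_right₀ hX (by norm_num)
  have hX31 : 1 ≤ X ^ 3 := one_le_pow₀ hX
  have hYX : X ≤ Y := by
    rw [hY]
    nlinarith
  have hY1 : 1 ≤ Y := by linarith
  have hHY : (H : ℝ) ≤ Y := by
    calc (H : ℝ) ≤ 8 * (W : ℝ) * A * B * E / N := hHle
      _ ≤ 8 * (W : ℝ) * A * B * E / 1 := div_le_div_of_nonneg_left (by positivity) (by norm_num) hN1
      _ = 8 * (W : ℝ) * A * B * E := div_one _
      _ ≤ 8 * (W : ℝ) * X * X * X := by gcongr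
      _ = 8 * W * X ^ 3 := by ring
      _ ≤ Y := by rw [hY]; nlinarith
  have hYe : Y ^ (eps / 4) = (16 * W) ^ (eps / 4) * X ^ (3 * (eps / 4)) := by
    rw [hY, Real.mul_rpow (by positivity) (by positivity), ← Real.rpow_natCast X 3,
      ← Real.rpow_mul hX0.le]
    norm_num
  have g2 := hgcs Y hY1 A B H hA hB (hAX.trans hYX) (hBX.trans hYX) hHY
  have g3 := hdgn Y hY1 B H hB (hBX.trans hYX) hHY
  -- rewriting
  have hrew : ∑ d₁ ∈ Ico A (2 * A), ∑ d₂ ∈ Ico B (2 * B), ∑ e ∈ Ico E (2 * E),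
      (if e.Coprime (d₁ * d₂) then
        ((γ d₁ d₂ * β e : ℝ) : ℂ) * Fr N (W * (d₁ * d₂) * e) (c d₁ d₂ e) else 0) =
      ∑ d ∈ Ico A (2 * A), ∑ e ∈ Ico E (2 * E), (β e : ℂ) *
        ∑ i ∈ Ico B (2 * B) ×ˢ Kr H, BLK_u N W q γ c d e i := by
    refine sum_congr rfl fun d hd => ?_
    rw [sum_comm]
    refine sum_congr rfl fun e he => ?_
    rw [sum_product, mul_sum]
    refine sum_congr rfl fun d₂ hd₂ => ?_
    rw [mem_Ico] at hd he hd₂
    by_cases hβe : β e = 0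
    · rw [hβe]
      simp
    have hqW' := hβ' e hβe
    have hcop : e.Coprime (q * W * (d * d₂)) ↔ e.Coprime (d * d₂) :=
      ⟨fun h => Nat.Coprime.coprime_mul_left_right h, fun h => hqW'.mul_right h⟩
    by_cases hco : e.Coprime (d * d₂)
    · rw [if_pos hco]
      have hm : 0 < W * (d * d₂) * e := by
        have : 0 < d := by omega
        have : 0 < d₂ := by omega
        have : 0 < e := by omega
        positivity
      have hmle : ((W * (d * d₂) * e : ℕ) : ℝ) ≤ N * (H + 1) := by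
        refine le_trans ?_ hHN
        have a1 : (d : ℝ) ≤ 2 * A := by exact_mod_cast hd.2.le
        have a2 : (d₂ : ℝ) ≤ 2 * B := by exact_mod_cast hd₂.2.le
        have a3 : (e : ℝ) ≤ 2 * E := by exact_mod_cast he.2.le
        push_cast
        calc (W : ℝ) * (d * d₂) * e ≤ W * ((2 * A) * (2 * B)) * (2 * E) := by gcongr
          _ = 8 * (W : ℝ) * A * B * E := by ring
      rw [BLK_Fr N _ H _ hN1 hm hmle, mul_sum, mul_sum]
      refine sum_congr rfl fun k _ => ?_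
      unfold BLK_u
      rw [if_pos (hcop.2 hco)]
      have hcast : ((W * (d * d₂) * e : ℕ) : ℝ) = (W : ℝ) * d * d₂ * e := by push_cast; ring
      rw [hcast]
      push_cast
      ring
    · rw [if_neg hco]
      have : ∀ k ∈ Kr H, BLK_u N W q γ c d e (d₂, k) = 0 := by
        intro k _
        unfold BLK_u
        rw [if_neg (fun h => hco (hcop.1 h))]
      rw [sum_congr rfl this]
      simp
  rw [hrew]
  have hcau := h4 (ℕ × ℤ) (Ico A (2 * A)) (Ico E (2 * E)) (Ico B (2 * B) ×ˢ Kr H) β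
    (BLK_u N W q γ c) hβ
  refine hcau.trans ?_
  -- a single pair
  set Z : ℝ := C1 * X ^ (eps / 4) * (p * q) ^ 4 * w₀ ^ 2 *
    (E / Real.sqrt (A * B) + 3 * (Real.sqrt A * B)) with hZ
  have hZ0 : 0 ≤ Z := by positivity
  have hpair : ∀ d ∈ Ico A (2 * A), ∀ i ∈ Ico B (2 * B) ×ˢ Kr H, ∀ i' ∈ Ico B (2 * B) ×ˢ Kr H,
      ‖∑ e ∈ Ico E (2 * E), BLK_u N W q γ c d e i * (starRingEnd ℂ) (BLK_u N W q γ c d e i')‖ ≤
      E * w₀ ^ 2 * (if Del i.1 i'.1 i.2 i'.2 = 0 then (1 : ℝ) else 0) +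
      Z * (if Del i.1 i'.1 i.2 i'.2 ≠ 0 then
        Real.sqrt (Int.gcd (Del i.1 i'.1 i.2 i'.2) (d * i.1.lcm i'.1 : ℕ)) else 0) := by
    rintro d hd ⟨d₂, k⟩ hi ⟨d₂', k'⟩ hi'
    rw [mem_product, mem_Ico] at hi hi'
    rw [mem_Ico] at hd
    simp only at hi hi' ⊢
    have hR0 : 0 ≤ E * w₀ ^ 2 * (if Del d₂ d₂' k k' = 0 then (1 : ℝ) else 0) +
        Z * (if Del d₂ d₂' k k' ≠ 0 then
          Real.sqrt (Int.gcd (Del d₂ d₂' k k') (d * d₂.lcm d₂' : ℕ)) else 0) := by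
      have a1 : 0 ≤ (if Del d₂ d₂' k k' = 0 then (1 : ℝ) else 0) := by split_ifs <;> norm_num
      have a2 : 0 ≤ (if Del d₂ d₂' k k' ≠ 0 then
          Real.sqrt (Int.gcd (Del d₂ d₂' k k') (d * d₂.lcm d₂' : ℕ)) else 0) := by
        split_ifs
        · exact Real.sqrt_nonneg _
        · exact le_rfl
      positivity
    by_cases hg1 : γ d d₂ = 0
    · refine le_trans (le_of_eq ?_) hR0
      rw [norm_eq_zero]
      refine sum_eq_zero fun e _ => ?_
      unfold BLK_u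
      simp [hg1]
    by_cases hg2 : γ d d₂' = 0
    · refine le_trans (le_of_eq ?_) hR0
      rw [norm_eq_zero]
      refine sum_eq_zero fun e _ => ?_
      unfold BLK_u
      simp [hg2]
    have hd0 : 0 < d := by omega
    have hd₂0 : 0 < d₂ := by omega
    have hd₂'0 : 0 < d₂' := by omega
    have hdA : (A : ℝ) ≤ d := by exact_mod_cast hd.1
    have hdB : (B : ℝ) ≤ d₂ := by exact_mod_cast hi.1.1
    have hdB' : (B : ℝ) ≤ d₂' := by exact_mod_cast hi'.1.1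
    have hdA2 : (d : ℝ) ≤ 2 * A := by exact_mod_cast hd.2.le
    have hdB2 : (d₂ : ℝ) ≤ 2 * B := by exact_mod_cast hi.1.2.le
    have hdB2' : (d₂' : ℝ) ≤ 2 * B := by exact_mod_cast hi'.1.2.le
    -- the product
    have hprod : ∑ e ∈ Ico E (2 * E), BLK_u N W q γ c d e (d₂, k) *
        (starRingEnd ℂ) (BLK_u N W q γ c d e (d₂', k')) =
        ((γ d d₂ * γ d d₂' : ℝ) : ℂ) *
        ∑ e ∈ (Ico E (2 * E)).filter (fun e => e.Coprime (q * W * (d * d₂.lcm d₂'))),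
          ((wk N k (W * d * d₂ * e) * wk N k' (W * d * d₂' * e) : ℝ) : ℂ) *
            (ef (k * c d d₂ e / (W * d * d₂ * e)) * ef (-(k' * c d d₂' e / (W * d * d₂' * e)))) := by
      rw [sum_filter, mul_sum]
      refine sum_congr rfl fun e _ => ?_
      unfold BLK_u
      simp only
      by_cases hce : e.Coprime (q * W * (d * d₂.lcm d₂'))
      · have h5 := (BLK_cop q W d d₂ d₂' e).1 hce
        rw [if_pos hce, if_pos h5.1, if_pos h5.2, map_mul, BLK_conj, Complex.conj_ofReal]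
        push_cast
        ring
      · rw [if_neg hce]
        by_cases h6 : e.Coprime (q * W * (d * d₂))
        · have h7 : ¬ e.Coprime (q * W * (d * d₂')) := fun h => hce ((BLK_cop q W d d₂ d₂' e).2 ⟨h6, h⟩)
          rw [if_neg h7]
          simp
        · rw [if_neg h6]
          simp
    rw [hprod, norm_mul, Complex.norm_real, Real.norm_eq_abs, abs_mul]
    have hgg : |γ d d₂| * |γ d d₂'| ≤ 1 := by
      have := mul_le_mul (hγ d d₂) (hγ d d₂') (abs_nonneg _) zero_le_one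
      linarith
    have hgg0 : 0 ≤ |γ d d₂| * |γ d d₂'| := by positivity
    refine (mul_le_of_le_one_left (norm_nonneg _) hgg).trans ?_
    by_cases hDel : Del d₂ d₂' k k' = 0
    · rw [if_pos hDel, if_neg (by simpa using hDel), mul_zero, add_zero, mul_one]
      have hb : ∀ e ∈ (Ico E (2 * E)).filter (fun e => e.Coprime (q * W * (d * d₂.lcm d₂'))),
          ‖((wk N k (W * d * d₂ * e) * wk N k' (W * d * d₂' * e) : ℝ) : ℂ) *
            (ef (k * c d d₂ e / (W * d * d₂ * e)) * ef (-(k' * c d d₂' e / (W * d * d₂' * e))))‖ ≤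
          w₀ ^ 2 := by
        intro e he
        have he3 := mem_Ico.1 (mem_filter.1 he).1
        have her : (E : ℝ) ≤ e := by exact_mod_cast he3.1
        rw [norm_mul, norm_mul, ef_norm, ef_norm, one_mul, mul_one, Complex.norm_real,
          Real.norm_eq_abs, abs_mul]
        have a1 := BLK_wk N hN k (W * A * B * E) (W * d * d₂ * e) (by positivity) (by gcongr)
        have a2 := BLK_wk N hN k' (W * A * B * E) (W * d * d₂' * e) (by positivity) (by gcongr)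
        rw [abs_of_nonneg a1.1, abs_of_nonneg a2.1, sq]
        rw [← hw₀] at a1 a2
        exact mul_le_mul a1.2 a2.2 a2.1 hw₀0.le
      refine (norm_sum_le_of_le _ hb).trans ?_
      rw [sum_const, nsmul_eq_mul]
      refine mul_le_mul_of_nonneg_right ?_ (by positivity)
      have := card_filter_le (Ico E (2 * E)) (fun e => e.Coprime (q * W * (d * d₂.lcm d₂')))
      rw [Nat.card_Ico] at this
      have h5 : 2 * E - E = E := by omega
      rw [h5] at this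
      exact_mod_cast this
    · rw [if_neg hDel, if_pos hDel, mul_zero, zero_add]
      have hs1 := hγ' d d₂ hg1
      have hs2 := hγ' d d₂' hg2
      have hd2cop : d₂.Coprime d := (Nat.coprime_of_squarefree_mul hs1.1).symm
      have hofe' := hofe X N hX hXN p q hp hq hpq hpW hqW a₀ d d₂ d₂' E k k' hd0
        (by linarith) (by linarith) (by linarith) hE hEX hs1.1 hs2.1 hs1.2 hs2.2 hDel
        (fun e => c d d₂ e) (fun e => c d d₂' e) (by
          intro e he hce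
          have h5 := (BLK_cop q W d d₂ d₂' e).1 hce
          have he0 : 0 < e := by
            have := (mem_Ico.1 he).1
            omega
          have k1 := hc d d₂ e hg1 he0 h5.1
          have k2 := hc d d₂' e hg2 he0 h5.2
          exact ⟨k1.1, k1.2.1, k1.2.2, k2.1, k2.2.1, k2.2.2⟩)
      refine hofe'.trans ?_
      set G : ℝ := Real.sqrt (Int.gcd (Del d₂ d₂' k k') (d * d₂.lcm d₂' : ℕ)) with hG
      have hG0 : 0 ≤ G := Real.sqrt_nonneg _
      have a1 : N / (W * d * d₂ * E) ≤ w₀ := by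
        rw [hw₀]
        exact div_le_div_of_nonneg_left hN.le (by positivity) (by gcongr)
      have a2 : N / (W * d * d₂' * E) ≤ w₀ := by
        rw [hw₀]
        exact div_le_div_of_nonneg_left hN.le (by positivity) (by gcongr)
      have hDlow : (A : ℝ) * B ≤ (d * d₂.lcm d₂' : ℕ) := by
        have b1 : d₂ ≤ d₂.lcm d₂' := Nat.le_of_dvd (Nat.lcm_pos hd₂0 hd₂'0) (Nat.dvd_lcm_left _ _)
        have b2 : (d₂ : ℝ) ≤ (d₂.lcm d₂' : ℕ) := by exact_mod_cast b1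
        push_cast
        calc (A : ℝ) * B ≤ d * d₂ := by gcongr
          _ ≤ d * (d₂.lcm d₂' : ℕ) := by gcongr
      have hDup : ((d * d₂.lcm d₂' : ℕ) : ℝ) ≤ A * (3 * B) ^ 2 := by
        have b1 : d₂.lcm d₂' ≤ d₂ * d₂' := Nat.le_of_dvd (by positivity)
          (Nat.lcm_dvd (Dvd.intro _ rfl) (Dvd.intro_left _ rfl))
        have b2 : ((d₂.lcm d₂' : ℕ) : ℝ) ≤ d₂ * d₂' := by exact_mod_cast b1
        push_cast
        calc (d : ℝ) * (d₂.lcm d₂' : ℕ) ≤ d * (d₂ * d₂') := by gcongr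
          _ ≤ (2 * A) * ((2 * B) * (2 * B)) := by gcongr
          _ ≤ A * (3 * B) ^ 2 := by nlinarith [mul_pos (by linarith : (0 : ℝ) < A) (by positivity : (0 : ℝ) < (B : ℝ) ^ 2)]
      have hAB0 : (0 : ℝ) < A * B := by positivity
      have b1 : (E : ℝ) / Real.sqrt (d * d₂.lcm d₂' : ℕ) ≤ E / Real.sqrt (A * B) := by
        refine div_le_div_of_nonneg_left (by positivity) (Real.sqrt_pos.2 hAB0) (Real.sqrt_le_sqrt hDlow)
      have b2 : Real.sqrt (d * d₂.lcm d₂' : ℕ) ≤ 3 * (Real.sqrt A * B) := by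
        calc Real.sqrt (d * d₂.lcm d₂' : ℕ) ≤ Real.sqrt (A * (3 * B) ^ 2) := Real.sqrt_le_sqrt hDup
          _ = Real.sqrt A * (3 * B) := by
              rw [Real.sqrt_mul (by positivity), Real.sqrt_sq (by positivity)]
          _ = 3 * (Real.sqrt A * B) := by ring
      have c1 : (0 : ℝ) ≤ N / (W * d * d₂ * E) := by positivity
      have c2 : (0 : ℝ) ≤ N / (W * d * d₂' * E) := by positivity
      calc C1 * X ^ (eps / 4) * (p * q) ^ 4 * G * (N / (W * d * d₂ * E)) * (N / (W * d * d₂' * E)) *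
            (E / Real.sqrt (d * d₂.lcm d₂' : ℕ) + Real.sqrt (d * d₂.lcm d₂' : ℕ))
          ≤ C1 * X ^ (eps / 4) * (p * q) ^ 4 * G * w₀ * w₀ *
            (E / Real.sqrt (A * B) + 3 * (Real.sqrt A * B)) := by gcongr
        _ = Z * G := by rw [hZ]; ring
  have hsum : ∑ d ∈ Ico A (2 * A), ∑ i ∈ Ico B (2 * B) ×ˢ Kr H, ∑ i' ∈ Ico B (2 * B) ×ˢ Kr H,
      ‖∑ e ∈ Ico E (2 * E), BLK_u N W q γ c d e i * (starRingEnd ℂ) (BLK_u N W q γ c d e i')‖ ≤
      E * w₀ ^ 2 * (A * (C3 * Y ^ (eps / 4) * (H * B))) +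
        Z * (C2 * Y ^ (eps / 4) * A * (H * B) ^ 2) := by
    have e1 : ∑ d ∈ Ico A (2 * A), ∑ i ∈ Ico B (2 * B) ×ˢ Kr H, ∑ i' ∈ Ico B (2 * B) ×ˢ Kr H,
        (E * w₀ ^ 2 * (if Del i.1 i'.1 i.2 i'.2 = 0 then (1 : ℝ) else 0) +
        Z * (if Del i.1 i'.1 i.2 i'.2 ≠ 0 then
          Real.sqrt (Int.gcd (Del i.1 i'.1 i.2 i'.2) (d * i.1.lcm i'.1 : ℕ)) else 0)) =
        E * w₀ ^ 2 * (A * ∑ d₂ ∈ Ico B (2 * B), ∑ k ∈ Kr H, ∑ d₂' ∈ Ico B (2 * B), ∑ k' ∈ Kr H,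
          (if Del d₂ d₂' k k' = 0 then (1 : ℝ) else 0)) +
        Z * ∑ d ∈ Ico A (2 * A), ∑ d₂ ∈ Ico B (2 * B), ∑ k ∈ Kr H, ∑ d₂' ∈ Ico B (2 * B), ∑ k' ∈ Kr H,
          (if Del d₂ d₂' k k' ≠ 0 then
            Real.sqrt (Int.gcd (Del d₂ d₂' k k') (d * d₂.lcm d₂' : ℕ)) else 0) := by
      simp only [sum_add_distrib, ← mul_sum, sum_product]
      rw [sum_const, Nat.card_Ico, nsmul_eq_mul]
      have h5 : 2 * A - A = A := by omega
      rw [h5]
    calc _ ≤ ∑ d ∈ Ico A (2 * A), ∑ i ∈ Ico B (2 * B) ×ˢ Kr H, ∑ i' ∈ Ico B (2 * B) ×ˢ Kr H,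
        (E * w₀ ^ 2 * (if Del i.1 i'.1 i.2 i'.2 = 0 then (1 : ℝ) else 0) +
        Z * (if Del i.1 i'.1 i.2 i'.2 ≠ 0 then
          Real.sqrt (Int.gcd (Del i.1 i'.1 i.2 i'.2) (d * i.1.lcm i'.1 : ℕ)) else 0)) :=
          sum_le_sum fun d hd => sum_le_sum fun i hi => sum_le_sum fun i' hi' => hpair d hd i hi i' hi'
      _ ≤ _ := by
          rw [e1]
          refine add_le_add ?_ ?_
          · exact mul_le_mul_of_nonneg_left (mul_le_mul_of_nonneg_left g3 (by positivity)) (by positivity)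
          · exact mul_le_mul_of_nonneg_left g2 hZ0
  have hcardA : ((Ico A (2 * A)).card : ℝ) = A := by
    rw [Nat.card_Ico]
    have h5 : 2 * A - A = A := by omega
    rw [h5]
  have hcardE : ((Ico E (2 * E)).card : ℝ) = E := by
    rw [Nat.card_Ico]
    have h5 : 2 * E - E = E := by omega
    rw [h5]
  rw [hcardA, hcardE]
  refine (mul_le_mul_of_nonneg_left hsum (by positivity)).trans ?_
  -- final computation
  set K : ℝ := (16 * (W : ℝ)) ^ (eps / 4) with hK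
  have hK0 : 0 < K := by positivity
  have hYK : Y ^ (eps / 4) ≤ K * X ^ eps := by
    rw [hYe]
    refine mul_le_mul_of_nonneg_left ?_ hK0.le
    exact Real.rpow_le_rpow_of_exponent_le hX (by linarith)
  have hYK2 : X ^ (eps / 4) * Y ^ (eps / 4) = K * X ^ eps := by
    rw [hYe]
    have : X ^ (eps / 4) * (K * X ^ (3 * (eps / 4))) = K * (X ^ (eps / 4) * X ^ (3 * (eps / 4))) := by ring
    rw [this, ← Real.rpow_add hX0]
    congr 2
    ring
  have hT1 : (A : ℝ) * E * (E * w₀ ^ 2 * (A * (C3 * Y ^ (eps / 4) * (H * B)))) ≤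
      8 * C3 * K * X ^ eps * (N * A * E) := by
    calc (A : ℝ) * E * (E * w₀ ^ 2 * (A * (C3 * Y ^ (eps / 4) * (H * B))))
        = C3 * Y ^ (eps / 4) * (H * w₀) * (A * B * E * w₀) * (A * E) := by ring
      _ ≤ C3 * (K * X ^ eps) * 8 * N * (A * E) := by gcongr
      _ = 8 * C3 * K * X ^ eps * (N * A * E) := by ring
  have hA32 : (A : ℝ) ^ (3 / 2 : ℝ) = A * Real.sqrt A := by
    rw [Real.sqrt_eq_rpow, ← Real.rpow_one_add' (by positivity) (by norm_num)]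
    norm_num
  have hB32 : (B : ℝ) ^ (3 / 2 : ℝ) = B * Real.sqrt B := by
    rw [Real.sqrt_eq_rpow, ← Real.rpow_one_add' (by positivity) (by norm_num)]
    norm_num
  have hA52 : (A : ℝ) ^ (5 / 2 : ℝ) = A ^ 2 * Real.sqrt A := by
    rw [Real.sqrt_eq_rpow, ← Real.rpow_natCast (A : ℝ) 2, ← Real.rpow_add (by linarith)]
    norm_num
  have hsA : Real.sqrt A * Real.sqrt A = A := Real.mul_self_sqrt (by positivity)
  have hsB : Real.sqrt B * Real.sqrt B = B := Real.mul_self_sqrt (by positivity)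
  have hsA0 : 0 < Real.sqrt A := Real.sqrt_pos.2 (by linarith)
  have hsB0 : 0 < Real.sqrt B := Real.sqrt_pos.2 (by linarith)
  have hAB : (A : ℝ) ^ 2 * B ^ 2 * (E / Real.sqrt (A * B)) = A ^ (3 / 2 : ℝ) * B ^ (3 / 2 : ℝ) * E := by
    rw [hA32, hB32, Real.sqrt_mul (by positivity)]
    field_simp
    nlinarith [hsA, hsB]
  have hT2 : (A : ℝ) * E * (Z * (C2 * Y ^ (eps / 4) * A * (H * B) ^ 2)) ≤
      192 * C1 * C2 * K * X ^ eps * ((p * q) ^ 4 *
      ((A : ℝ) ^ (5 / 2 : ℝ) * (B : ℝ) ^ 3 * E + (A : ℝ) ^ (3 / 2 : ℝ) * (B : ℝ) ^ (3 / 2 : ℝ) * (E : ℝ) ^ 2)) := by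
    have hHw2 : (H * w₀) ^ 2 ≤ 64 := by
      have : 0 ≤ H * w₀ := by positivity
      nlinarith
    calc (A : ℝ) * E * (Z * (C2 * Y ^ (eps / 4) * A * (H * B) ^ 2))
        = C1 * C2 * (X ^ (eps / 4) * Y ^ (eps / 4)) * (p * q) ^ 4 * (H * w₀) ^ 2 *
          (A ^ 2 * B ^ 2 * E * (E / Real.sqrt (A * B) + 3 * (Real.sqrt A * B))) := by rw [hZ]; ring
      _ ≤ C1 * C2 * (K * X ^ eps) * (p * q) ^ 4 * 64 *
          (A ^ 2 * B ^ 2 * E * (E / Real.sqrt (A * B) + 3 * (Real.sqrt A * B))) := by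
          rw [hYK2]
          gcongr
      _ = C1 * C2 * (K * X ^ eps) * (p * q) ^ 4 * 64 *
          ((A ^ 2 * B ^ 2 * (E / Real.sqrt (A * B))) * E + 3 * ((A ^ 2 * Real.sqrt A) * B ^ 3 * E)) := by
          ring
      _ = C1 * C2 * (K * X ^ eps) * (p * q) ^ 4 * 64 *
          (A ^ (3 / 2 : ℝ) * B ^ (3 / 2 : ℝ) * E * E + 3 * (A ^ (5 / 2 : ℝ) * B ^ 3 * E)) := by
          rw [hAB, hA52]
      _ ≤ C1 * C2 * (K * X ^ eps) * (p * q) ^ 4 * 64 *
          (3 * (A ^ (3 / 2 : ℝ) * B ^ (3 / 2 : ℝ) * E * E) + 3 * (A ^ (5 / 2 : ℝ) * B ^ 3 * E)) := by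
          have : (0 : ℝ) ≤ (A : ℝ) ^ (3 / 2 : ℝ) * (B : ℝ) ^ (3 / 2 : ℝ) * E * E := by positivity
          refine mul_le_mul_of_nonneg_left (by linarith) (by positivity)
      _ = 192 * C1 * C2 * K * X ^ eps * ((p * q) ^ 4 *
        ((A : ℝ) ^ (5 / 2 : ℝ) * (B : ℝ) ^ 3 * E + (A : ℝ) ^ (3 / 2 : ℝ) * (B : ℝ) ^ (3 / 2 : ℝ) * (E : ℝ) ^ 2)) := by
          ring
  set V1 : ℝ := N * A * E with hV1
  set V2 : ℝ := (p * q) ^ 4 *
      ((A : ℝ) ^ (5 / 2 : ℝ) * (B : ℝ) ^ 3 * E + (A : ℝ) ^ (3 / 2 : ℝ) * (B : ℝ) ^ (3 / 2 : ℝ) * (E : ℝ) ^ 2) with hV2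
  have hV10 : 0 ≤ V1 := by positivity
  have hV20 : 0 ≤ V2 := by positivity
  calc (A : ℝ) * E * (E * w₀ ^ 2 * (A * (C3 * Y ^ (eps / 4) * (H * B))) +
        Z * (C2 * Y ^ (eps / 4) * A * (H * B) ^ 2))
      = (A : ℝ) * E * (E * w₀ ^ 2 * (A * (C3 * Y ^ (eps / 4) * (H * B)))) +
        (A : ℝ) * E * (Z * (C2 * Y ^ (eps / 4) * A * (H * B) ^ 2)) := by ring
    _ ≤ 8 * C3 * K * X ^ eps * V1 + 192 * C1 * C2 * K * X ^ eps * V2 := add_le_add hT1 hT2
    _ ≤ (8 * C3 + 192 * C1 * C2) * K * X ^ eps * V1 + (8 * C3 + 192 * C1 * C2) * K * X ^ eps * V2 := by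
        have x1 : 8 * C3 * K * X ^ eps * V1 ≤ (8 * C3 + 192 * C1 * C2) * K * X ^ eps * V1 := by
          have : 0 ≤ 192 * C1 * C2 * K * X ^ eps * V1 := by positivity
          linarith [this, (by ring : (8 * C3 + 192 * C1 * C2) * K * X ^ eps * V1 =
            8 * C3 * K * X ^ eps * V1 + 192 * C1 * C2 * K * X ^ eps * V1)]
        have x2 : 192 * C1 * C2 * K * X ^ eps * V2 ≤ (8 * C3 + 192 * C1 * C2) * K * X ^ eps * V2 := by
          have : 0 ≤ 8 * C3 * K * X ^ eps * V2 := by positivity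
          linarith [this, (by ring : (8 * C3 + 192 * C1 * C2) * K * X ^ eps * V2 =
            8 * C3 * K * X ^ eps * V2 + 192 * C1 * C2 * K * X ^ eps * V2)]
        exact add_le_add x1 x2
    _ = (8 * C3 + 192 * C1 * C2) * K * X ^ eps * (V1 + V2) := by ring

end Pool.Agent.PT
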