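import Mathlib
import Pool.Agent.helper71.AA.M0
import Pool.Agent.helper31.RLS.Spec

/-! # Project PT (MP_ad8ced_nt): `P₂` values of `a p² - 1` for almost all `a`. Definitions -/

set_option autoImplicit false

namespace Pool.Agent.PT

open Finset Pool.Agent.helper71.AA

/-- `e(x) = exp (2 π i x)` -/
noncomputable def ef (x : ℝ) : ℂ := Complex.exp (2 * Real.pi * x * Complex.I)

/-- the weight `(sin (π a / N) / (π a / N)) ^ 2` on the integers -/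
noncomputable def Fz (N : ℝ) (a : ℤ) : ℝ := Real.sinc (Real.pi * a / N) ^ 2

/-- the triangle function -/
noncomputable def Tri (y : ℝ) : ℝ := max 0 (1 - |y|)

/-- the weight of the frequency `k / m` -/
noncomputable def wk (N : ℝ) (k : ℤ) (m : ℝ) : ℝ := N / m * Tri (N * k / m)

/-- the nonzero frequencies of the class `c` modulo `m` -/
noncomputable def Fr (N : ℝ) (m : ℕ) (c : ℤ) : ℂ :=
  ∑ k ∈ (Icc (-(m : ℤ)) m).erase 0, (wk N k m : ℂ) * ef (k * c / m)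

/-- weighted sum over the class `a₀` modulo `W` -/
noncomputable def EN (W : ℕ) (a₀ : ℤ) (N : ℝ) (F : ℤ → ℝ) : ℝ :=
  ∑' a : ℤ, if (W : ℤ) ∣ a - a₀ then Fz N a * F a else 0

/-- bounded functions -/
def Bd (F : ℤ → ℝ) : Prop := ∃ B : ℝ, ∀ a, |F a| ≤ B

/-- the primes in `Q` which divide `a p² - 1`, for an integer `a` -/
def Az (Q : Finset ℕ) (p : ℕ) (a : ℤ) : Finset ℕ := Q.filter (fun l => (l : ℤ) ∣ a * p ^ 2 - 1)

/-- the divisor sum with the coefficients `ξ` -/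
noncomputable def U (ξ : Finset ℕ → ℝ) (A : Finset ℕ) : ℝ := ∑ K ∈ A.powerset, ξ K

/-- its main term -/
noncomputable def Vx (Q : Finset ℕ) (ξ : Finset ℕ → ℝ) : ℝ := ∑ K ∈ Q.powerset, ξ K / pr K

/-- the level of the Selberg sieve -/
noncomputable def Rr (X : ℝ) : ℝ := X ^ (0.00001 : ℝ)

/-- the small primes -/
noncomputable def Qm (w : ℕ) (X η : ℝ) : Finset ℕ := Qs w ⌊X ^ η⌋₊

/-- the large primes -/
noncomputable def Ql (X η : ℝ) : Finset ℕ := Qs ⌊X ^ η⌋₊ ⌊X ^ (0.47 : ℝ)⌋₊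

/-- the sifting weight of `a p² - 1` -/
noncomputable def fw (w : ℕ) (X η : ℝ) (ξ : Finset ℕ → ℝ) (p : ℕ) (a : ℤ) : ℝ :=
  Sg ((Qm w X η).erase p) (Rr X) (Az (Qm w X η) p a) ^ 2 * U ξ (Az (Ql X η) p a)

/-- the same, if no small prime divides `a p² - 1` (and `|a| ≤ X²`) -/
noncomputable def ft (w : ℕ) (X η : ℝ) (ξ : Finset ℕ → ℝ) (p : ℕ) (a : ℤ) : ℝ :=
  if Az (Qm w X η) p a = ∅ ∧ |(a : ℝ)| ≤ X ^ 2 then fw w X η ξ p a else 0

/-- admissible coefficients on the large primes -/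
structure AdmL (X η : ℝ) (ξ : Finset ℕ → ℝ) : Prop where
  bd : ∀ K, |ξ K| ≤ 2
  su : ∀ K, ξ K ≠ 0 → K ⊆ Ql X η ∧ pr K ≤ X ^ (0.553 : ℝ)
  ct : ∀ K, ξ K ≠ 0 → (∃ K₁ ⊆ K, pr K₁ ≤ X ^ (0.445 : ℝ) ∧ pr (K \ K₁) ≤ X ^ (0.108 : ℝ)) ∨
    pr K ≤ X ^ (0.499 : ℝ)
  nn : ∀ T ⊆ Ql X η, 0 ≤ U ξ T

/-- admissible coefficients (for the prime `p`) -/
structure Cof (w : ℕ) (X : ℝ) (p : ℕ) (ξ : Finset ℕ → ℝ) : Prop where
  bd : ∀ D, |ξ D| ≤ X ^ (0.0001 : ℝ)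
  pm : ∀ D, ξ D ≠ 0 → ∀ l ∈ D, l.Prime ∧ w < l ∧ l ≠ p
  le : ∀ D, ξ D ≠ 0 → pr D ≤ X ^ (0.5531 : ℝ)
  ct : ∀ D, ξ D ≠ 0 → (∃ D₁ ⊆ D, pr D₁ ≤ X ^ (0.4451 : ℝ) ∧ pr (D \ D₁) ≤ X ^ (0.108 : ℝ)) ∨
    pr D ≤ X ^ (0.4991 : ℝ)

/-- the range of `P` -/
def Rg2 (C X P : ℝ) : Prop :=
  C * Real.log X * Real.log (Real.log X) ≤ P ∧ P ≤ X ^ (0.0001 : ℝ)

/-- the good primes: at most two prime factors, all larger than `z` -/
noncomputable def Gp2 (a : ℕ) (P z : ℝ) : Finset ℕ :=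
  (Icc 1 ⌊P⌋₊).filter (fun p => p.Prime ∧ (a * p ^ 2 - 1).primeFactorsList.length ≤ 2 ∧
    ∀ l : ℕ, l ∈ (a * p ^ 2 - 1).primeFactors → z < (l : ℝ))

/-- the coefficient `λ` of the weights -/
noncomputable def lamR : ℝ := 1 / (3 - 1.0002 / 0.47)

/-- the congruences for the class `c` -/
def Cg (W p q : ℕ) (a₀ : ℤ) (d e : ℕ) (c : ℤ) : Prop :=
  (W : ℤ) ∣ c - a₀ ∧ (d : ℤ) ∣ p ^ 2 * c - 1 ∧ (e : ℤ) ∣ q ^ 2 * c - 1

/-- the nonzero integers in `[-H, H]` -/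
noncomputable def Kr (H : ℕ) : Finset ℤ := (Icc (-(H : ℤ)) H).erase 0

/-! ## Basic facts -/

lemma ef_zero : ef 0 = 1 := by simp [ef]

lemma ef_add (x y : ℝ) : ef (x + y) = ef x * ef y := by
  unfold ef
  rw [← Complex.exp_add]
  congr 1
  push_cast
  ring

lemma ef_norm (x : ℝ) : ‖ef x‖ = 1 := by
  unfold ef
  have : (2 * (Real.pi : ℂ) * (x : ℂ) * Complex.I) = ((2 * Real.pi * x : ℝ) : ℂ) * Complex.I := by
    push_cast; ring
  rw [this, Complex.norm_exp_ofReal_mul_I]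

lemma ef_int (n : ℤ) : ef n = 1 := by
  unfold ef
  have : (2 * (Real.pi : ℂ) * ((n : ℝ) : ℂ) * Complex.I) = n * (2 * Real.pi * Complex.I) := by
    push_cast; ring
  rw [this, Complex.exp_int_mul_two_pi_mul_I]

lemma ef_add_int (x : ℝ) (n : ℤ) : ef (x + n) = ef x := by rw [ef_add, ef_int, mul_one]

lemma Fz_nonneg (N : ℝ) (a : ℤ) : 0 ≤ Fz N a := sq_nonneg _

lemma Tri_nonneg (y : ℝ) : 0 ≤ Tri y := le_max_left _ _

lemma Tri_le (y : ℝ) : Tri y ≤ 1 := max_le zero_le_one (by linarith [abs_nonneg y])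

lemma Fz_le (N : ℝ) (a : ℤ) : Fz N a ≤ 1 := by
  unfold Fz
  have h := Real.abs_sinc_le_one (Real.pi * a / N)
  have h2 := sq_le_sq' (abs_le.1 h).1 (abs_le.1 h).2
  linarith

lemma Fz_le_sq (N : ℝ) (hN : 0 < N) (a : ℤ) (ha : a ≠ 0) :
    Fz N a ≤ N ^ 2 / Real.pi ^ 2 * (1 / (a : ℝ) ^ 2) := by
  unfold Fz
  have hpi := Real.pi_pos
  have ha' : (a : ℝ) ≠ 0 := by exact_mod_cast ha
  have h0 : Real.pi * a / N ≠ 0 := by positivity
  rw [Real.sinc_of_ne_zero h0, div_pow]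
  have h1 : Real.sin (Real.pi * a / N) ^ 2 ≤ 1 := Real.sin_sq_le_one _
  have h2 : 0 < (Real.pi * a / N) ^ 2 := by positivity
  calc Real.sin (Real.pi * a / N) ^ 2 / (Real.pi * a / N) ^ 2 ≤ 1 / (Real.pi * a / N) ^ 2 :=
        div_le_div_of_nonneg_right h1 h2.le
    _ = N ^ 2 / Real.pi ^ 2 * (1 / (a : ℝ) ^ 2) := by field_simp

lemma Fz_summable (N : ℝ) (hN : 0 < N) : Summable (fun a : ℤ => Fz N a) := by
  have h1 : Summable (fun a : ℤ => N ^ 2 / Real.pi ^ 2 * (1 / (a : ℝ) ^ 2)) :=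
    (Real.summable_one_div_int_pow.2 (by norm_num)).mul_left _
  have h2 : Summable (fun a : ℤ => if a = 0 then (1 : ℝ) else 0) :=
    summable_of_ne_finset_zero (s := {0}) (fun a ha => by
      rw [if_neg (by simpa using ha)])
  refine Summable.of_nonneg_of_le (fun a => Fz_nonneg N a) (fun a => ?_) (h1.add h2)
  by_cases ha : a = 0
  · subst ha
    simp only [if_true]
    have := Fz_le N 0
    have h3 : 0 ≤ N ^ 2 / Real.pi ^ 2 * (1 / ((0 : ℤ) : ℝ) ^ 2) := by positivity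
    linarith
  · rw [if_neg ha, add_zero]
    exact Fz_le_sq N hN a ha

lemma Bd.summable {F : ℤ → ℝ} (hF : Bd F) (W : ℕ) (a₀ : ℤ) (N : ℝ) (hN : 0 < N) :
    Summable (fun a : ℤ => if (W : ℤ) ∣ a - a₀ then Fz N a * F a else 0) := by
  obtain ⟨B, hB⟩ := hF
  refine Summable.of_norm_bounded ((Fz_summable N hN).mul_right B) (fun a => ?_)
  have hB0 : 0 ≤ B := (abs_nonneg _).trans (hB a)
  split_ifs
  · rw [norm_mul, Real.norm_eq_abs, Real.norm_eq_abs, abs_of_nonneg (Fz_nonneg N a)]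
    exact mul_le_mul_of_nonneg_left (hB a) (Fz_nonneg N a)
  · rw [norm_zero]
    exact mul_nonneg (Fz_nonneg N a) hB0

lemma Bd.add {F G : ℤ → ℝ} (hF : Bd F) (hG : Bd G) : Bd (fun a => F a + G a) := by
  obtain ⟨B, hB⟩ := hF
  obtain ⟨C, hC⟩ := hG
  exact ⟨B + C, fun a => (abs_add_le _ _).trans (add_le_add (hB a) (hC a))⟩

lemma Bd.mul {F G : ℤ → ℝ} (hF : Bd F) (hG : Bd G) : Bd (fun a => F a * G a) := by
  obtain ⟨B, hB⟩ := hF
  obtain ⟨C, hC⟩ := hG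
  refine ⟨B * C, fun a => ?_⟩
  rw [abs_mul]
  exact mul_le_mul (hB a) (hC a) (abs_nonneg _) ((abs_nonneg _).trans (hB a))

lemma Bd.const (c : ℝ) : Bd (fun _ => c) := ⟨|c|, fun _ => le_rfl⟩

lemma Bd.cmul {F : ℤ → ℝ} (hF : Bd F) (c : ℝ) : Bd (fun a => c * F a) := (Bd.const c).mul hF

lemma Bd.sub {F G : ℤ → ℝ} (hF : Bd F) (hG : Bd G) : Bd (fun a => F a - G a) := by
  obtain ⟨B, hB⟩ := hF.add (hG.cmul (-1))
  refine ⟨B, fun a => ?_⟩
  have h := hB a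
  simp only at h ⊢
  rw [show F a - G a = F a + -1 * G a by ring]
  exact h

lemma Bd.sum {ι : Type*} (s : Finset ι) (F : ι → ℤ → ℝ) (hF : ∀ i ∈ s, Bd (F i)) :
    Bd (fun a => ∑ i ∈ s, F i a) := by
  classical
  induction s using Finset.induction_on with
  | empty => exact ⟨0, fun a => by simp⟩
  | insert i s hi ih =>
    have h := (hF i (mem_insert_self i s)).add (ih fun j hj => hF j (mem_insert_of_mem hj))
    obtain ⟨B, hB⟩ := h
    refine ⟨B, fun a => ?_⟩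
    simp only [sum_insert hi]
    exact hB a

lemma Bd.of_le {F G : ℤ → ℝ} (hG : Bd G) (h : ∀ a, |F a| ≤ |G a|) : Bd F := by
  obtain ⟨B, hB⟩ := hG
  exact ⟨B, fun a => (h a).trans (hB a)⟩

/-- a function of the set of the primes in `Q` dividing `a p² - 1` is bounded -/
lemma Bd.az (Q : Finset ℕ) (p : ℕ) (F : Finset ℕ → ℝ) : Bd (fun a => F (Az Q p a)) := by
  refine ⟨∑ A ∈ Q.powerset, |F A|, fun a => ?_⟩
  exact single_le_sum (f := fun A => |F A|) (fun A _ => abs_nonneg _)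
    (mem_powerset.2 (filter_subset _ _))

lemma EN_add {F G : ℤ → ℝ} (hF : Bd F) (hG : Bd G) (W : ℕ) (a₀ : ℤ) (N : ℝ) (hN : 0 < N) :
    EN W a₀ N (fun a => F a + G a) = EN W a₀ N F + EN W a₀ N G := by
  unfold EN
  rw [← (hF.summable W a₀ N hN).tsum_add (hG.summable W a₀ N hN)]
  refine tsum_congr fun a => ?_
  split_ifs
  · ring
  · ring

lemma EN_cmul (F : ℤ → ℝ) (c : ℝ) (W : ℕ) (a₀ : ℤ) (N : ℝ) :
    EN W a₀ N (fun a => c * F a) = c * EN W a₀ N F := by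
  unfold EN
  rw [← tsum_mul_left]
  refine tsum_congr fun a => ?_
  split_ifs
  · ring
  · ring

lemma EN_sub {F G : ℤ → ℝ} (hF : Bd F) (hG : Bd G) (W : ℕ) (a₀ : ℤ) (N : ℝ) (hN : 0 < N) :
    EN W a₀ N (fun a => F a - G a) = EN W a₀ N F - EN W a₀ N G := by
  unfold EN
  rw [← (hF.summable W a₀ N hN).tsum_sub (hG.summable W a₀ N hN)]
  refine tsum_congr fun a => ?_
  split_ifs
  · ring
  · ring

lemma EN_sum {ι : Type*} (s : Finset ι) (F : ι → ℤ → ℝ) (hF : ∀ i ∈ s, Bd (F i)) (W : ℕ) (a₀ : ℤ)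
    (N : ℝ) (hN : 0 < N) : EN W a₀ N (fun a => ∑ i ∈ s, F i a) = ∑ i ∈ s, EN W a₀ N (F i) := by
  unfold EN
  rw [← Summable.tsum_finsetSum fun i hi => (hF i hi).summable W a₀ N hN]
  refine tsum_congr fun a => ?_
  split_ifs
  · rw [mul_sum]
  · rw [sum_const_zero]

lemma EN_mono {F G : ℤ → ℝ} (hF : Bd F) (hG : Bd G) (h : ∀ a, F a ≤ G a) (W : ℕ) (a₀ : ℤ) (N : ℝ)
    (hN : 0 < N) : EN W a₀ N F ≤ EN W a₀ N G := by
  unfold EN
  refine Summable.tsum_le_tsum (fun a => ?_) (hF.summable W a₀ N hN) (hG.summable W a₀ N hN)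
  split_ifs
  · exact mul_le_mul_of_nonneg_left (h a) (Fz_nonneg N a)
  · exact le_rfl

lemma EN_nonneg {F : ℤ → ℝ} (h : ∀ a, 0 ≤ F a) (W : ℕ) (a₀ : ℤ) (N : ℝ) : 0 ≤ EN W a₀ N F := by
  unfold EN
  refine tsum_nonneg fun a => ?_
  split_ifs
  · exact mul_nonneg (Fz_nonneg N a) (h a)
  · exact le_rfl

/-- finite parts of the sum -/
lemma EN_finset {F : ℤ → ℝ} (hF : Bd F) (h : ∀ a, 0 ≤ F a) (W : ℕ) (a₀ : ℤ) (N : ℝ) (hN : 0 < N)
    (s : Finset ℤ) (hs : ∀ a ∈ s, (W : ℤ) ∣ a - a₀) : ∑ a ∈ s, Fz N a * F a ≤ EN W a₀ N F := by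
  unfold EN
  have h1 : ∑ a ∈ s, Fz N a * F a = ∑ a ∈ s, (if (W : ℤ) ∣ a - a₀ then Fz N a * F a else 0) :=
    sum_congr rfl fun a ha => by rw [if_pos (hs a ha)]
  rw [h1]
  refine Summable.sum_le_tsum s (fun a _ => ?_) (hF.summable W a₀ N hN)
  split_ifs
  · exact mul_nonneg (Fz_nonneg N a) (h a)
  · exact le_rfl

/-- `Fr N m c` only depends on the class of `c` modulo `m` -/
lemma Fr_congr (N : ℝ) (m : ℕ) (hm : 0 < m) (c c' : ℤ) (h : (m : ℤ) ∣ c - c') :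
    Fr N m c = Fr N m c' := by
  unfold Fr
  refine sum_congr rfl fun k _ => ?_
  congr 1
  obtain ⟨t, ht⟩ := h
  have hm' : (m : ℝ) ≠ 0 := by exact_mod_cast hm.ne'
  have h1 : (c : ℝ) = c' + m * t := by
    have : c = c' + m * t := by linarith
    rw [this]
    push_cast
    ring
  have h2 : (k : ℝ) * c / m = k * c' / m + ((k * t : ℤ) : ℝ) := by
    rw [h1]
    push_cast
    field_simp
  rw [h2, ef_add_int]

/-- no frequencies for a small modulus -/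
lemma wk_zero (N : ℝ) (k : ℤ) (m : ℝ) (hm : 0 < m) (h : m ≤ N * |(k : ℝ)|) (hN : 0 < N) :
    wk N k m = 0 := by
  unfold wk Tri
  have h1 : |N * k / m| = N * |(k : ℝ)| / m := by
    rw [abs_div, abs_mul, abs_of_pos hN, abs_of_pos hm]
  have h2 : 1 ≤ N * |(k : ℝ)| / m := by rwa [le_div_iff₀ hm, one_mul]
  rw [h1, max_eq_left (by linarith), mul_zero]

lemma Fr_zero (N : ℝ) (m : ℕ) (hm : 0 < m) (hN : 0 < N) (h : (m : ℝ) ≤ N) (c : ℤ) :
    Fr N m c = 0 := by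
  unfold Fr
  refine sum_eq_zero fun k hk => ?_
  have hk0 : k ≠ 0 := (mem_erase.1 hk).1
  have h1 : (1 : ℝ) ≤ |(k : ℝ)| := by
    have : (1 : ℤ) ≤ |k| := Int.one_le_abs hk0
    exact_mod_cast this
  rw [wk_zero N k m (by exact_mod_cast hm) (by nlinarith) hN]
  simp

/-- existence of the class -/
lemma Cg_exists (W p q : ℕ) (a₀ : ℤ) (d e : ℕ) (h1 : d.Coprime W) (h2 : e.Coprime W)
    (h3 : e.Coprime d) (h4 : d.Coprime p) (h5 : e.Coprime q) : ∃ c : ℤ, Cg W p q a₀ d e c := by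
  -- inverses
  have hp : IsCoprime (d : ℤ) ((p : ℤ) ^ 2) := (Nat.isCoprime_iff_coprime.2 h4).pow_right
  have hq : IsCoprime (e : ℤ) ((q : ℤ) ^ 2) := (Nat.isCoprime_iff_coprime.2 h5).pow_right
  have hdW : IsCoprime (d : ℤ) (W : ℤ) := Nat.isCoprime_iff_coprime.2 h1
  have heW : IsCoprime (e : ℤ) (W : ℤ) := Nat.isCoprime_iff_coprime.2 h2
  have hed : IsCoprime (e : ℤ) (d : ℤ) := Nat.isCoprime_iff_coprime.2 h3
  obtain ⟨u1, v1, e1⟩ := hp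
  obtain ⟨u2, v2, e2⟩ := hq
  obtain ⟨x1, y1, f1⟩ := hdW
  -- c₁ ≡ a₀ mod W, ≡ v1 mod d
  obtain ⟨x2, y2, f2⟩ := heW.mul_right hed
  refine ⟨(a₀ * (x1 * d) + v1 * (y1 * W)) * (x2 * e) + v2 * (y2 * (W * d)), ?_, ?_, ?_⟩
  · have g1 : (x1 * d : ℤ) = 1 - y1 * W := by linarith
    have g2 : (x2 * e : ℤ) = 1 - y2 * (W * d) := by linarith
    rw [g1, g2]
    exact ⟨(-(a₀ * y1) + v1 * y1) * (1 - y2 * (W * d)) - a₀ * (y2 * d) + v2 * (y2 * d), by ring⟩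
  · have g1 : (y1 * W : ℤ) = 1 - x1 * d := by linarith
    have g2 : (x2 * e : ℤ) = 1 - y2 * (W * d) := by linarith
    have g3 : (v1 * (p : ℤ) ^ 2 : ℤ) = 1 - u1 * d := by linarith
    have : (p : ℤ) ^ 2 * ((a₀ * (x1 * d) + v1 * (y1 * W)) * (x2 * e) + v2 * (y2 * (W * d))) - 1 =
        d * ((p : ℤ) ^ 2 * ((a₀ * x1 - v1 * x1) * (x2 * e) - v1 * (y2 * W) + v2 * (y2 * W)) - u1) := by
      rw [g1, g2]
      linear_combination g3
    rw [this]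
    exact dvd_mul_right _ _
  · have g2 : (y2 * (W * d) : ℤ) = 1 - x2 * e := by linarith
    have g3 : (v2 * (q : ℤ) ^ 2 : ℤ) = 1 - u2 * e := by linarith
    have : (q : ℤ) ^ 2 * ((a₀ * (x1 * d) + v1 * (y1 * W)) * (x2 * e) + v2 * (y2 * (W * d))) - 1 =
        e * ((q : ℤ) ^ 2 * ((a₀ * (x1 * d) + v1 * (y1 * W)) * x2 - v2 * x2) - u2) := by
      rw [g2]
      linear_combination g3
    rw [this]
    exact dvd_mul_right _ _

/-- uniqueness of the class -/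
lemma Cg_unique (W p q : ℕ) (a₀ : ℤ) (d e : ℕ) (h1 : d.Coprime W) (h2 : e.Coprime W)
    (h3 : e.Coprime d) (h4 : d.Coprime p) (h5 : e.Coprime q) (c c' : ℤ) (hc : Cg W p q a₀ d e c)
    (hc' : Cg W p q a₀ d e c') : ((W * d * e : ℕ) : ℤ) ∣ c - c' := by
  have hp : IsCoprime (d : ℤ) ((p : ℤ) ^ 2) := (Nat.isCoprime_iff_coprime.2 h4).pow_right
  have hq : IsCoprime (e : ℤ) ((q : ℤ) ^ 2) := (Nat.isCoprime_iff_coprime.2 h5).pow_right
  have hdW : IsCoprime (d : ℤ) (W : ℤ) := Nat.isCoprime_iff_coprime.2 h1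
  have heW : IsCoprime (e : ℤ) (W : ℤ) := Nat.isCoprime_iff_coprime.2 h2
  have hed : IsCoprime (e : ℤ) (d : ℤ) := Nat.isCoprime_iff_coprime.2 h3
  have k1 : (W : ℤ) ∣ c - c' := by
    have := dvd_sub hc.1 hc'.1
    have e1 : c - a₀ - (c' - a₀) = c - c' := by ring
    rwa [e1] at this
  have k2 : (d : ℤ) ∣ c - c' := by
    have := dvd_sub hc.2.1 hc'.2.1
    have e1 : (p : ℤ) ^ 2 * c - 1 - ((p : ℤ) ^ 2 * c' - 1) = (p : ℤ) ^ 2 * (c - c') := by ring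
    rw [e1] at this
    exact hp.dvd_of_dvd_mul_left this
  have k3 : (e : ℤ) ∣ c - c' := by
    have := dvd_sub hc.2.2 hc'.2.2
    have e1 : (q : ℤ) ^ 2 * c - 1 - ((q : ℤ) ^ 2 * c' - 1) = (q : ℤ) ^ 2 * (c - c') := by ring
    rw [e1] at this
    exact hq.dvd_of_dvd_mul_left this
  push_cast
  exact (heW.mul_right hed).symm.mul_dvd (hdW.symm.mul_dvd k1 k2) k3

end Pool.Agent.PT
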