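import Pool.Agent.helper36.PT.Main0
import Pool.Agent.helper82.PT.KLP
import Pool.Agent.helper71.AA.U2

/-! # Project PT: the theorem -/

namespace Pool.Agent.PT

theorem FNL_all : FNL_stmt := FNL_of KLP

end Pool.Agent.PT
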