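import Pool.Agent.helper36.PT.Spec
import Pool.Agent.helper47.RA.Num

set_option autoImplicit false

namespace Pool.Agent.PT

open Finset Pool.Agent.helper71.AA

lemma OFE_ef_norm_sub_one (x : ℝ) : ‖ef x - 1‖ ≤ 2 * Real.pi * |x| := by
  have h := Real.norm_exp_I_mul_ofReal_sub_one_le (x := 2 * Real.pi * x)
  have h2 : ef x = Complex.exp (Complex.I * ((2 * Real.pi * x : ℝ) : ℂ)) := by
    unfold ef
    congr 1
    push_cast
    ring
  rw [h2]
  refine h.trans ?_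
  rw [Real.norm_eq_abs, abs_mul, abs_of_pos (by positivity : (0 : ℝ) < 2 * Real.pi)]

lemma OFE_wk_le (N : ℝ) (hN : 0 < N) (k : ℤ) (m₀ m : ℝ) (hm₀ : 0 < m₀) (hm : m₀ ≤ m) :
    0 ≤ wk N k m ∧ wk N k m ≤ N / m₀ := by
  unfold wk
  have hm' : 0 < m := by linarith
  constructor
  · exact mul_nonneg (by positivity) (Tri_nonneg _)
  · calc N / m * Tri (N * k / m) ≤ N / m * 1 :=
        mul_le_mul_of_nonneg_left (Tri_le _) (by positivity)
      _ = N / m := mul_one _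
      _ ≤ N / m₀ := div_le_div_of_nonneg_left hN.le hm₀ hm

lemma OFE_shift (k c c₁ : ℤ) (m : ℕ) (hm : 0 < m) (h : (m : ℤ) ∣ c - c₁) :
    ef (k * c / m) = ef (k * c₁ / m) := by
  obtain ⟨t, ht⟩ := h
  have hm' : (m : ℝ) ≠ 0 := by exact_mod_cast hm.ne'
  have h1 : (c : ℝ) = c₁ + m * t := by
    have : c = c₁ + m * t := by linarith
    rw [this]
    push_cast
    ring
  have h2 : (k : ℝ) * c / m = k * c₁ / m + ((k * t : ℤ) : ℝ) := by
    rw [h1]
    push_cast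
    field_simp
  rw [h2, ef_add_int]

/-- the divisor bound and the logarithm -/
lemma OFE_div (eps : ℝ) (heps : 0 < eps) : ∃ K : ℝ, 1 ≤ K ∧ ∀ X : ℝ, 1 ≤ X → ∀ M : ℕ, 0 < M →
    (M : ℝ) ≤ 8 * X ^ 3 → 2 ^ M.primeFactors.card * (2 + Real.log M) ≤ K * X ^ eps := by
  have he : 0 < eps / 6 := by positivity
  obtain ⟨Cd, hCd, hdiv⟩ := Pool.Agent.helper47.RA.card_divisors_le (eps / 6) he
  refine ⟨Cd * (2 + 1 / (eps / 6)) * 8 ^ (eps / 3), ?_, ?_⟩
  · have h1 : (1 : ℝ) ≤ 8 ^ (eps / 3) := Real.one_le_rpow (by norm_num) (by positivity)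
    have h2 : (1 : ℝ) ≤ 2 + 1 / (eps / 6) := by
      have : 0 < 1 / (eps / 6) := by positivity
      linarith
    exact one_le_mul_of_one_le_of_one_le (one_le_mul_of_one_le_of_one_le hCd h2) h1
  · intro X hX M hM hMX
    have hM1 : (1 : ℝ) ≤ M := by exact_mod_cast hM
    have hM0 : (0 : ℝ) < M := by linarith
    have h1 : (2 : ℝ) ^ M.primeFactors.card ≤ M.divisors.card := by
      have : M.primeFactors.powerset.card ≤ M.divisors.card := by
        apply Finset.card_le_card_of_injOn (fun s => ∏ p ∈ s, p)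
        · intro s hs
          rw [mem_coe, mem_powerset] at hs
          rw [mem_coe, Nat.mem_divisors]
          refine ⟨?_, hM.ne'⟩
          calc ∏ p ∈ s, p ∣ ∏ p ∈ M.primeFactors, p := Finset.prod_dvd_prod_of_subset _ _ _ hs
            _ ∣ M := Nat.prod_primeFactors_dvd M
        · intro s hs t ht hst
          rw [mem_coe, mem_powerset] at hs ht
          exact S3_prod_inj s t (fun l hl => Nat.prime_of_mem_primeFactors (hs hl))
            (fun l hl => Nat.prime_of_mem_primeFactors (ht hl)) hst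
      rw [Finset.card_powerset] at this
      exact_mod_cast this
    have h2 : ((M.divisors.card : ℕ) : ℝ) ≤ Cd * (M : ℝ) ^ (eps / 6) := hdiv M hM
    have h3 : Real.log M ≤ (M : ℝ) ^ (eps / 6) / (eps / 6) :=
      Real.log_le_rpow_div hM0.le he
    have h4 : (1 : ℝ) ≤ (M : ℝ) ^ (eps / 6) := Real.one_le_rpow hM1 he.le
    have h5 : 2 + Real.log M ≤ (2 + 1 / (eps / 6)) * (M : ℝ) ^ (eps / 6) := by
      have : (M : ℝ) ^ (eps / 6) / (eps / 6) = 1 / (eps / 6) * (M : ℝ) ^ (eps / 6) := by ring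
      rw [this] at h3
      nlinarith
    have hlog : 0 ≤ Real.log M := Real.log_nonneg hM1
    calc 2 ^ M.primeFactors.card * (2 + Real.log M)
        ≤ (Cd * (M : ℝ) ^ (eps / 6)) * ((2 + 1 / (eps / 6)) * (M : ℝ) ^ (eps / 6)) :=
          mul_le_mul (h1.trans h2) h5 (by linarith) (by positivity)
      _ = Cd * (2 + 1 / (eps / 6)) * ((M : ℝ) ^ (eps / 6) * (M : ℝ) ^ (eps / 6)) := by ring
      _ = Cd * (2 + 1 / (eps / 6)) * (M : ℝ) ^ (eps / 3) := by
          rw [← Real.rpow_add hM0]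
          congr 2
          ring
      _ ≤ Cd * (2 + 1 / (eps / 6)) * (8 * X ^ 3) ^ (eps / 3) := by
          refine mul_le_mul_of_nonneg_left ?_ (by positivity)
          exact Real.rpow_le_rpow hM0.le hMX (by positivity)
      _ = Cd * (2 + 1 / (eps / 6)) * 8 ^ (eps / 3) * X ^ eps := by
          rw [Real.mul_rpow (by norm_num) (by positivity), ← Real.rpow_natCast X 3,
            ← Real.rpow_mul (by linarith)]
          have : ((3 : ℕ) : ℝ) * (eps / 3) = eps := by push_cast; ring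
          rw [this]
          ring

theorem OFE (h1 : INC_stmt) (h2 : WKS_stmt) (h3 : GCB_stmt) : OFE_stmt := by
  intro eps heps W hW
  obtain ⟨K, hK, hdiv⟩ := OFE_div eps heps
  have hWr : (1 : ℝ) ≤ W := by exact_mod_cast hW
  refine ⟨4 * K * W + 26, by positivity, ?_⟩
  intro X N hX hXN p q hp hq hpq hpW hqW a₀ d d₂ d₂' E k k' hd0 hdX hd₂X hd₂'X hE hEX hsq hsq' hcop
    hcop' hDel c c' hc
  have hN : 0 < N := by linarith
  have hEr : (1 : ℝ) ≤ E := by exact_mod_cast hE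
  have hd₂0 : 0 < d₂ := Nat.pos_of_ne_zero (fun h => by rw [h, mul_zero] at hsq; exact not_squarefree_zero hsq)
  have hd₂'0 : 0 < d₂' := Nat.pos_of_ne_zero (fun h => by rw [h, mul_zero] at hsq'; exact not_squarefree_zero hsq')
  obtain ⟨g, hg⟩ : ∃ g : ℕ, g = d₂.gcd d₂' := ⟨_, rfl⟩
  have hg0 : 0 < g := by rw [hg]; exact Nat.gcd_pos_of_pos_left _ hd₂0
  obtain ⟨α, hα⟩ : ∃ α : ℕ, α = d₂' / g := ⟨_, rfl⟩
  obtain ⟨β, hβ⟩ : ∃ β : ℕ, β = d₂ / g := ⟨_, rfl⟩
  have hαg : α * g = d₂' := by rw [hα]; exact Nat.div_mul_cancel (by rw [hg]; exact Nat.gcd_dvd_right _ _)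
  have hβg : β * g = d₂ := by rw [hβ]; exact Nat.div_mul_cancel (by rw [hg]; exact Nat.gcd_dvd_left _ _)
  have hα0 : 0 < α := Nat.pos_of_ne_zero (fun h => by rw [h, zero_mul] at hαg; omega)
  have hβ0 : 0 < β := Nat.pos_of_ne_zero (fun h => by rw [h, zero_mul] at hβg; omega)
  have hlcm1 : d₂.lcm d₂' = d₂ * α := by
    rw [Nat.lcm, ← hg, ← hαg, ← mul_assoc, Nat.mul_div_cancel _ hg0]
  have hlcm2 : d₂.lcm d₂' = d₂' * β := by
    rw [Nat.lcm, ← hg, mul_comm d₂ d₂']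
    nth_rewrite 1 [← hβg]
    rw [← mul_assoc, Nat.mul_div_cancel _ hg0]
  obtain ⟨D, hD⟩ : ∃ D : ℕ, D = d * d₂.lcm d₂' := ⟨_, rfl⟩
  have hD1 : D = d * d₂ * α := by rw [hD, hlcm1, mul_assoc]
  have hD2 : D = d * d₂' * β := by rw [hD, hlcm2, mul_assoc]
  have hD0 : 0 < D := by rw [hD1]; positivity
  have hDr : (1 : ℝ) ≤ D := by exact_mod_cast hD0
  obtain ⟨Δ, hΔ⟩ : ∃ Δ : ℤ, Δ = Del d₂ d₂' k k' := ⟨_, rfl⟩
  have hΔ' : Δ = k * α - k' * β := by
    rw [hΔ, Del, ← hg, ← hα, ← hβ]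
  rw [← hΔ] at hDel ⊢
  rw [← hD] at hc ⊢
  -- coprimality
  have hcd2 : d.Coprime d₂ := Nat.coprime_of_squarefree_mul hsq
  have hcd2' : d.Coprime d₂' := Nat.coprime_of_squarefree_mul hsq'
  have hsd : Squarefree d := hsq.squarefree_of_dvd (Dvd.intro _ rfl)
  have hs2 : Squarefree d₂ := hsq.squarefree_of_dvd (Dvd.intro_left _ rfl)
  have hs2' : Squarefree d₂' := hsq'.squarefree_of_dvd (Dvd.intro_left _ rfl)
  have hslcm : Squarefree (d₂.lcm d₂') := by
    rw [hlcm1]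
    rw [Nat.squarefree_mul_iff]
    refine ⟨?_, hs2, hs2'.squarefree_of_dvd ⟨g, hαg.symm⟩⟩
    -- d₂ = β g, α coprime to β and g
    rw [← hβg]
    apply Nat.Coprime.mul_left
    · have := Nat.coprime_div_gcd_div_gcd (m := d₂) (n := d₂') (by rw [← hg]; exact hg0)
      rw [← hg, ← hα, ← hβ] at this
      exact this
    · apply Nat.Coprime.symm
      apply Nat.coprime_of_squarefree_mul
      rw [hαg]
      exact hs2'
  have hcdl : d.Coprime (d₂.lcm d₂') := Nat.Coprime.coprime_dvd_right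
    (Nat.lcm_dvd (Dvd.intro _ rfl) (Dvd.intro_left _ rfl)) (hcd2.mul_right hcd2')
  have hsD : Squarefree D := by
    rw [hD, Nat.squarefree_mul_iff]
    exact ⟨hcdl, hsd, hslcm⟩
  have hDpW : D.Coprime (p * W) := by
    have h5 : (d * d₂ * (d * d₂')).Coprime (p * W) := Nat.Coprime.mul_left hcop hcop'
    refine Nat.Coprime.coprime_dvd_left ?_ h5
    rw [hD]
    have : d₂.lcm d₂' ∣ d₂ * d₂' := Nat.lcm_dvd (Dvd.intro _ rfl) (Dvd.intro_left _ rfl)
    calc d * d₂.lcm d₂' ∣ d * (d₂ * d₂') := mul_dvd_mul_left _ this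
      _ ∣ d * d₂ * (d * d₂') := ⟨d, by ring⟩
  have hDp : D.Coprime p := Nat.Coprime.coprime_mul_right_right hDpW
  have hDW : D.Coprime W := Nat.Coprime.coprime_mul_left_right hDpW
  -- sizes
  have hDle : (D : ℝ) ≤ 8 * X ^ 3 := by
    have h5 : D ≤ d * (d₂ * d₂') := by
      rw [hD]
      exact Nat.mul_le_mul_left _ (Nat.le_of_dvd (by positivity)
        (Nat.lcm_dvd (Dvd.intro _ rfl) (Dvd.intro_left _ rfl)))
    have h6 : (D : ℝ) ≤ d * (d₂ * d₂') := by exact_mod_cast h5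
    have h7 : (d : ℝ) * (d₂ * d₂') ≤ (2 * X) * ((2 * X) * (2 * X)) := by gcongr
    nlinarith
  have hqr : (2 : ℝ) ≤ q := by exact_mod_cast hq.two_le
  have hpr : (2 : ℝ) ≤ p := by exact_mod_cast hp.two_le
  have hpq1 : (1 : ℝ) ≤ p * q := by nlinarith
  set G : ℝ := Real.sqrt (Int.gcd Δ D : ℕ) with hGdef
  have hgcd1 : 1 ≤ Int.gcd Δ D := Nat.one_le_iff_ne_zero.2 (by
    intro h
    rw [Int.gcd_eq_zero_iff] at h
    exact hDel h.1)
  have hG1 : 1 ≤ G := by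
    rw [hGdef]
    apply Real.one_le_sqrt.2
    exact_mod_cast hgcd1
  have hsD1 : 1 ≤ Real.sqrt D := Real.one_le_sqrt.2 hDr
  have hdr : (0 : ℝ) < d := by exact_mod_cast hd0
  have hd₂r : (0 : ℝ) < d₂ := by exact_mod_cast hd₂0
  have hd₂'r : (0 : ℝ) < d₂' := by exact_mod_cast hd₂'0
  have hW0 : (0 : ℝ) < W := by linarith
  have hE0 : (0 : ℝ) < E := by linarith
  set x : ℝ := W * d * d₂ with hx
  set x' : ℝ := W * d * d₂' with hx'
  have hx0 : 0 < x := by positivity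
  have hx'0 : 0 < x' := by positivity
  set w₀ : ℝ := N / (x * E) with hw₀
  set w₀' : ℝ := N / (x' * E) with hw₀'
  have hw₀0 : 0 < w₀ := by positivity
  have hw₀'0 : 0 < w₀' := by positivity
  have hXe : 1 ≤ X ^ eps := Real.one_le_rpow hX heps.le
  -- the right side
  have hRHS : 0 ≤ (4 * K * W + 26) * X ^ eps * (p * q) ^ 4 * G * w₀ * w₀' *
      (E / Real.sqrt D + Real.sqrt D) := by positivity
  -- trivial cases
  by_cases hk : 2 * (x * E) ≤ N * |(k : ℝ)|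
  · refine le_trans (le_of_eq ?_) hRHS
    rw [norm_eq_zero]
    refine sum_eq_zero fun e he => ?_
    have he2 := (mem_Ico.1 (mem_filter.1 he).1)
    have her : (e : ℝ) ≤ 2 * E := by
      have : e ≤ 2 * E := by omega
      exact_mod_cast this
    have he0 : (0 : ℝ) < e := by
      have : 0 < e := by omega
      exact_mod_cast this
    rw [wk_zero N k (x * e) (by positivity) (by nlinarith) hN]
    simp
  by_cases hk' : 2 * (x' * E) ≤ N * |(k' : ℝ)|
  · refine le_trans (le_of_eq ?_) hRHS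
    rw [norm_eq_zero]
    refine sum_eq_zero fun e he => ?_
    have he2 := (mem_Ico.1 (mem_filter.1 he).1)
    have her : (e : ℝ) ≤ 2 * E := by
      have : e ≤ 2 * E := by omega
      exact_mod_cast this
    have he0 : (0 : ℝ) < e := by
      have : 0 < e := by omega
      exact_mod_cast this
    rw [wk_zero N k' (x' * e) (by positivity) (by nlinarith) hN]
    simp
  push Not at hk hk'
  have hΔle : N * |(Δ : ℝ)| ≤ 4 * (W * E * D) := by
    have e1 : (Δ : ℝ) = k * α - k' * β := by rw [hΔ']; push_cast; ring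
    have hDr1 : (D : ℝ) = d * d₂ * α := by rw [hD1]; push_cast; ring
    have hDr2 : (D : ℝ) = d * d₂' * β := by rw [hD2]; push_cast; ring
    have hαr : (0 : ℝ) < α := by exact_mod_cast hα0
    have hβr : (0 : ℝ) < β := by exact_mod_cast hβ0
    have e2 : |(Δ : ℝ)| ≤ |(k : ℝ)| * α + |(k' : ℝ)| * β := by
      rw [e1]
      refine (abs_sub _ _).trans ?_
      rw [abs_mul, abs_mul, abs_of_pos hαr, abs_of_pos hβr]
    have e3 : N * |(k : ℝ)| * α ≤ 2 * (x * E) * α := mul_le_mul_of_nonneg_right hk.le hαr.le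
    have e4 : N * |(k' : ℝ)| * β ≤ 2 * (x' * E) * β := mul_le_mul_of_nonneg_right hk'.le hβr.le
    have e5 : 2 * (x * E) * α = 2 * (W * E * D) := by rw [hx, hDr1]; ring
    have e6 : 2 * (x' * E) * β = 2 * (W * E * D) := by rw [hx', hDr2]; ring
    calc N * |(Δ : ℝ)| ≤ N * (|(k : ℝ)| * α + |(k' : ℝ)| * β) := mul_le_mul_of_nonneg_left e2 hN.le
      _ = N * |(k : ℝ)| * α + N * |(k' : ℝ)| * β := by ring
      _ ≤ 4 * (W * E * D) := by rw [e5] at e3; rw [e6] at e4; linarith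
  -- the classes
  have hq0 : 0 < q := hq.pos
  obtain ⟨c₀, hc₀⟩ := Cg_exists W p q a₀ D 1 hDW (Nat.coprime_one_left W) (Nat.coprime_one_left D) hDp
    (Nat.coprime_one_left q)
  have hex : ∀ e : ℕ, e.Coprime (q * W * D) → ∃ c₁ : ℤ, Cg W p q a₀ D e c₁ := by
    intro e he
    have g1 : e.Coprime (q * W) := Nat.Coprime.coprime_mul_right_right he
    exact Cg_exists W p q a₀ D e hDW (Nat.Coprime.coprime_mul_left_right g1)
      (Nat.Coprime.coprime_mul_left_right he) hDp (Nat.Coprime.coprime_mul_right_right g1)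
  choose! c₁ hc₁ using hex
  have hexf : ∀ e : ℕ, e.Coprime (q * W * D) → ∃ f : ℤ, (q : ℤ) ^ 2 * c₁ e - 1 = e * f := by
    intro e he
    obtain ⟨f, hf⟩ := (hc₁ e he).2.2
    exact ⟨f, hf⟩
  choose! f hf using hexf
  obtain ⟨M₀, M₁, hM, hMco, hM1sq, hM1D, hmco, hM0le⟩ := h3 W p q D c₀ Δ hW hp hq hpq hD0 hsD hDW hDp
    hc₀.2.1 hDel
  have hMpos : 0 < M₀ * M₁ := by rw [hM]; positivity
  have hM00 : 0 < M₀ := Nat.pos_of_mul_pos_right hMpos
  have hM10 : 0 < M₁ := Nat.pos_of_mul_pos_left hMpos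
  have hcopiff : ∀ e : ℕ, e.Coprime (q * W * D) ↔ e.Coprime (M₀ * M₁) := by
    intro e
    rw [hM]
    have e1 : q ^ 2 * W * D = q * (q * W * D) := by ring
    rw [e1]
    constructor
    · intro h
      exact Nat.Coprime.mul_right (Nat.Coprime.coprime_mul_right_right
        (Nat.Coprime.coprime_mul_right_right h)) h
    · intro h
      exact Nat.Coprime.coprime_mul_left_right h
  have hj : ∀ e : ℕ, e.Coprime (M₀ * M₁) →
      ((M₀ * M₁ : ℕ) : ℤ) ∣ e * (Δ * f e) - Δ * ((q : ℤ) ^ 2 * c₀ - 1) := by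
    intro e he
    have he' := (hcopiff e).2 he
    have g1 : ((W * D * 1 : ℕ) : ℤ) ∣ c₁ e - c₀ :=
      Cg_unique W p q a₀ D 1 hDW (Nat.coprime_one_left W) (Nat.coprime_one_left D) hDp
        (Nat.coprime_one_left q) (c₁ e) c₀ ⟨(hc₁ e he').1, (hc₁ e he').2.1, by simp⟩ hc₀
    have g2 : (e : ℤ) * (Δ * f e) - Δ * ((q : ℤ) ^ 2 * c₀ - 1) = Δ * ((q : ℤ) ^ 2 * (c₁ e - c₀)) := by
      linear_combination (-Δ) * (hf e he')
    rw [g2, hM]
    refine Dvd.dvd.mul_left ?_ _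
    obtain ⟨t, ht⟩ := g1
    exact ⟨t, by rw [ht]; push_cast; ring⟩
  set S : ℝ := K * X ^ eps * (W * (p * q) ^ 4 * G * (E / Real.sqrt D + Real.sqrt D)) with hS
  have hMr : ((M₀ : ℝ) * M₁) = (q : ℝ) ^ 2 * W * D := by exact_mod_cast hM
  have hM0r : (1 : ℝ) ≤ M₀ := by exact_mod_cast hM00
  have hM1r : (1 : ℝ) ≤ M₁ := by exact_mod_cast hM10
  have hsM0 : Real.sqrt M₀ ≤ G * Real.sqrt (W * q ^ 3 * (p * q) ^ 2) := by
    rw [hGdef, ← Real.sqrt_mul (by positivity)]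
    refine Real.sqrt_le_sqrt (hM0le.trans (le_of_eq ?_))
    ring
  have hpqq : (q : ℝ) ≤ p * q := by nlinarith
  have hA1 : Real.sqrt (W * q ^ 3 * (p * q) ^ 2) ≤ W * (p * q) ^ 4 := by
    rw [Real.sqrt_le_left (by positivity)]
    calc (W : ℝ) * (q : ℝ) ^ 3 * ((p : ℝ) * q) ^ 2 ≤ (W : ℝ) * ((p : ℝ) * q) ^ 3 * ((p : ℝ) * q) ^ 2 := by
          gcongr
      _ = (W : ℝ) * ((p : ℝ) * q) ^ 5 := by ring
      _ ≤ ((W : ℝ) * W) * ((p : ℝ) * q) ^ 8 := by
          refine mul_le_mul (by nlinarith) (pow_le_pow_right₀ hpq1 (by norm_num)) (by positivity)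
            (by positivity)
      _ = ((W : ℝ) * ((p : ℝ) * q) ^ 4) ^ 2 := by ring
  have hA2 : Real.sqrt (W * q ^ 3 * (p * q) ^ 2) * Real.sqrt (q ^ 2 * W) ≤ W * (p * q) ^ 4 := by
    rw [← Real.sqrt_mul (by positivity), Real.sqrt_le_left (by positivity)]
    calc (W : ℝ) * (q : ℝ) ^ 3 * ((p : ℝ) * q) ^ 2 * ((q : ℝ) ^ 2 * W) =
          (W : ℝ) ^ 2 * ((q : ℝ) ^ 5 * ((p : ℝ) * q) ^ 2) := by ring
      _ ≤ (W : ℝ) ^ 2 * (((p : ℝ) * q) ^ 5 * ((p : ℝ) * q) ^ 2) := by gcongr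
      _ = (W : ℝ) ^ 2 * ((p : ℝ) * q) ^ 7 := by ring
      _ ≤ (W : ℝ) ^ 2 * ((p : ℝ) * q) ^ 8 := mul_le_mul_of_nonneg_left
          (pow_le_pow_right₀ hpq1 (by norm_num)) (by positivity)
      _ = ((W : ℝ) * ((p : ℝ) * q) ^ 4) ^ 2 := by ring
  have hsM1pos : 0 < Real.sqrt M₁ := Real.sqrt_pos.2 (by linarith)
  have hsDpos : 0 < Real.sqrt D := by linarith
  have hB1 : (E : ℝ) / Real.sqrt M₁ ≤ W * (p * q) ^ 4 * G * (E / Real.sqrt D) := by
    have g1 : Real.sqrt D ≤ Real.sqrt M₀ * Real.sqrt M₁ := by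
      rw [← Real.sqrt_mul (by linarith), hMr]
      refine Real.sqrt_le_sqrt ?_
      have : (1 : ℝ) ≤ q ^ 2 * W := by nlinarith
      nlinarith
    rw [div_le_iff₀ hsM1pos]
    have g2 : Real.sqrt M₀ ≤ W * (p * q) ^ 4 * G := by
      calc Real.sqrt M₀ ≤ G * Real.sqrt (W * q ^ 3 * (p * q) ^ 2) := hsM0
        _ ≤ G * (W * (p * q) ^ 4) := mul_le_mul_of_nonneg_left hA1 (by positivity)
        _ = W * (p * q) ^ 4 * G := by ring
    calc (E : ℝ) = E / Real.sqrt D * Real.sqrt D := by field_simp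
      _ ≤ E / Real.sqrt D * (Real.sqrt M₀ * Real.sqrt M₁) :=
          mul_le_mul_of_nonneg_left g1 (by positivity)
      _ ≤ E / Real.sqrt D * ((W * (p * q) ^ 4 * G) * Real.sqrt M₁) := by gcongr
      _ = W * (p * q) ^ 4 * G * (E / Real.sqrt D) * Real.sqrt M₁ := by ring
  have hB2 : (M₀ : ℝ) * Real.sqrt M₁ ≤ W * (p * q) ^ 4 * G * Real.sqrt D := by
    have g1 : Real.sqrt M₀ * Real.sqrt M₁ = Real.sqrt (q ^ 2 * W) * Real.sqrt D := by
      rw [← Real.sqrt_mul (by linarith), hMr, Real.sqrt_mul (by positivity)]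
    calc (M₀ : ℝ) * Real.sqrt M₁ = Real.sqrt M₀ * (Real.sqrt M₀ * Real.sqrt M₁) := by
          rw [← mul_assoc, Real.mul_self_sqrt (by linarith)]
      _ = Real.sqrt M₀ * (Real.sqrt (q ^ 2 * W) * Real.sqrt D) := by rw [g1]
      _ ≤ (G * Real.sqrt (W * q ^ 3 * (p * q) ^ 2)) * (Real.sqrt (q ^ 2 * W) * Real.sqrt D) := by
          gcongr
      _ = G * (Real.sqrt (W * q ^ 3 * (p * q) ^ 2) * Real.sqrt (q ^ 2 * W)) * Real.sqrt D := by ring
      _ ≤ G * (W * (p * q) ^ 4) * Real.sqrt D := by gcongr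
      _ = W * (p * q) ^ 4 * G * Real.sqrt D := by ring
  have hlogM : 0 ≤ Real.log M₁ := Real.log_nonneg hM1r
  have hdivM := hdiv X hX M₁ hM10 (by
    have : (M₁ : ℝ) ≤ D := by exact_mod_cast Nat.le_of_dvd hD0 hM1D
    linarith)
  have hSbound : ∀ u' v' : ℕ, E ≤ u' → u' ≤ v' → v' ≤ 2 * E →
      ‖∑ e ∈ Ico u' v', (if e.Coprime (M₀ * M₁) then
        ef (((Δ * f e : ℤ) : ℝ) / ((M₀ * M₁ : ℕ) : ℝ)) else 0)‖ ≤ S := by
    intro u' v' hu hv hv2
    rw [← sum_filter]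
    have g1 := h1 M₀ M₁ u' v' hM00 hM10 hMco hM1sq hv (Δ * ((q : ℤ) ^ 2 * c₀ - 1)) hmco
      (fun e => Δ * f e) (fun e _ he => hj e he)
    refine g1.trans ?_
    have hlen : ((v' : ℝ) - u') ≤ E := by
      have g2 : v' ≤ u' + E := by omega
      have g3 : (v' : ℝ) ≤ u' + E := by exact_mod_cast g2
      linarith
    calc (2 : ℝ) ^ M₁.primeFactors.card * (((v' : ℝ) - u') / Real.sqrt M₁ +
          M₀ * Real.sqrt M₁ * (2 + Real.log M₁))
        ≤ (2 : ℝ) ^ M₁.primeFactors.card * (E / Real.sqrt M₁ * (2 + Real.log M₁) +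
          M₀ * Real.sqrt M₁ * (2 + Real.log M₁)) := by
          refine mul_le_mul_of_nonneg_left (add_le_add ?_ le_rfl) (by positivity)
          calc ((v' : ℝ) - u') / Real.sqrt M₁ ≤ E / Real.sqrt M₁ :=
                div_le_div_of_nonneg_right hlen hsM1pos.le
            _ ≤ E / Real.sqrt M₁ * (2 + Real.log M₁) :=
                le_mul_of_one_le_right (by positivity) (by linarith)
      _ = (2 ^ M₁.primeFactors.card * (2 + Real.log M₁)) * (E / Real.sqrt M₁ + M₀ * Real.sqrt M₁) := by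
          ring
      _ ≤ (K * X ^ eps) * (W * (p * q) ^ 4 * G * (E / Real.sqrt D) +
            W * (p * q) ^ 4 * G * Real.sqrt D) := by
          refine mul_le_mul hdivM (add_le_add hB1 hB2) (by positivity) (by positivity)
      _ = S := by rw [hS]; ring
  have hwks := h2 N x x' S k k' E (2 * E) (fun e => if e.Coprime (M₀ * M₁) then
        ef (((Δ * f e : ℤ) : ℝ) / ((M₀ * M₁ : ℕ) : ℝ)) else 0) hN hx0 hx'0 hE (by omega) hSbound
  -- the identity of the terms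
  have hterm : ∀ e ∈ (Ico E (2 * E)).filter (fun e => e.Coprime (q * W * D)),
      ((wk N k (x * e) * wk N k' (x' * e) : ℝ) : ℂ) *
        (ef (k * c e / (W * d * d₂ * e)) * ef (-(k' * c' e / (W * d * d₂' * e)))) =
      ((wk N k (x * e) * wk N k' (x' * e) : ℝ) : ℂ) * ef (((Δ * f e : ℤ) : ℝ) / ((M₀ * M₁ : ℕ) : ℝ)) +
      ((wk N k (x * e) * wk N k' (x' * e) : ℝ) : ℂ) * (ef (((Δ * f e : ℤ) : ℝ) / ((M₀ * M₁ : ℕ) : ℝ)) *
        (ef (Δ / (((M₀ * M₁ : ℕ) : ℝ) * e)) - 1)) := by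
    intro e he
    rw [mem_filter] at he
    obtain ⟨he1, he2⟩ := he
    have he3 := mem_Ico.1 he1
    have he0 : 0 < e := by omega
    obtain ⟨k1, k2, k3, k4, k5, k6⟩ := hc e he1 he2
    have g0 : e.Coprime (q * W) := Nat.Coprime.coprime_mul_right_right he2
    have gW : e.Coprime W := Nat.Coprime.coprime_mul_left_right g0
    have gq : e.Coprime q := Nat.Coprime.coprime_mul_right_right g0
    have gD : e.Coprime D := Nat.Coprime.coprime_mul_left_right he2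
    have d1 : d * d₂ ∣ D := by rw [hD1]; exact Dvd.intro _ rfl
    have d2 : d * d₂' ∣ D := by rw [hD2]; exact Dvd.intro _ rfl
    have hC := hc₁ e he2
    have u1 : ((W * (d * d₂) * e : ℕ) : ℤ) ∣ c e - c₁ e :=
      Cg_unique W p q a₀ (d * d₂) e (Nat.Coprime.coprime_dvd_left d1 hDW) gW
        (Nat.Coprime.coprime_dvd_right d1 gD) (Nat.Coprime.coprime_dvd_left d1 hDp) gq _ _
        ⟨k1, k2, k3⟩ ⟨hC.1, (Int.natCast_dvd_natCast.2 d1).trans hC.2.1, hC.2.2⟩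
    have u2 : ((W * (d * d₂') * e : ℕ) : ℤ) ∣ c' e - c₁ e :=
      Cg_unique W p q a₀ (d * d₂') e (Nat.Coprime.coprime_dvd_left d2 hDW) gW
        (Nat.Coprime.coprime_dvd_right d2 gD) (Nat.Coprime.coprime_dvd_left d2 hDp) gq _ _
        ⟨k4, k5, k6⟩ ⟨hC.1, (Int.natCast_dvd_natCast.2 d2).trans hC.2.1, hC.2.2⟩
    have v1 := OFE_shift k (c e) (c₁ e) (W * (d * d₂) * e) (by positivity) u1
    have v2 := OFE_shift (-k') (c' e) (c₁ e) (W * (d * d₂') * e) (by positivity) u2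
    have w1 : ((W * (d * d₂) * e : ℕ) : ℝ) = (W : ℝ) * d * d₂ * e := by push_cast; ring
    have w2 : ((W * (d * d₂') * e : ℕ) : ℝ) = (W : ℝ) * d * d₂' * e := by push_cast; ring
    rw [w1] at v1
    rw [w2] at v2
    have w3 : -((k' : ℝ) * c' e / (W * d * d₂' * e)) = ((-k' : ℤ) : ℝ) * c' e / (W * d * d₂' * e) := by
      push_cast
      ring
    rw [← mul_add]
    congr 1
    rw [v1, w3, v2, ← ef_add]
    have e1 : (Δ : ℝ) = k * α - k' * β := by rw [hΔ']; push_cast; ring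
    have hDr1 : (D : ℝ) = d * d₂ * α := by rw [hD1]; push_cast; ring
    have hDr2 : (D : ℝ) = d * d₂' * β := by rw [hD2]; push_cast; ring
    have hfe : (q : ℝ) ^ 2 * c₁ e - 1 = e * f e := by exact_mod_cast hf e he2
    have her : (e : ℝ) ≠ 0 := by exact_mod_cast he0.ne'
    have hDne : (D : ℝ) ≠ 0 := by linarith
    have hqne : (q : ℝ) ≠ 0 := by linarith
    have key : (k : ℝ) * c₁ e / (W * d * d₂ * e) + ((-k' : ℤ) : ℝ) * c₁ e / (W * d * d₂' * e) =
        ((Δ * f e : ℤ) : ℝ) / ((M₀ * M₁ : ℕ) : ℝ) + Δ / (((M₀ * M₁ : ℕ) : ℝ) * e) := by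
      have z1 : (k : ℝ) * c₁ e / (W * d * d₂ * e) = k * α * c₁ e / (W * D * e) := by
        rw [hDr1]
        have : (α : ℝ) ≠ 0 := by exact_mod_cast hα0.ne'
        field_simp
      have z2 : ((-k' : ℤ) : ℝ) * c₁ e / (W * d * d₂' * e) = -(k' * β * c₁ e) / (W * D * e) := by
        rw [hDr2]
        have : (β : ℝ) ≠ 0 := by exact_mod_cast hβ0.ne'
        push_cast
        field_simp
      have z3 : ((M₀ * M₁ : ℕ) : ℝ) = (q : ℝ) ^ 2 * W * D := by push_cast; exact hMr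
      have z4 : (c₁ e : ℝ) = (1 + e * f e) / (q : ℝ) ^ 2 := by
        rw [eq_div_iff (by positivity)]
        linarith
      rw [z1, z2, z3]
      push_cast
      rw [← add_div, z4]
      have z5 : (k : ℝ) * α * ((1 + e * f e) / (q : ℝ) ^ 2) + -(k' * β * ((1 + e * f e) / (q : ℝ) ^ 2)) =
          Δ * ((1 + e * f e) / (q : ℝ) ^ 2) := by rw [e1]; ring
      rw [z5]
      field_simp
      ring
    rw [key, ef_add]
    ring
  have hxe : ∀ e : ℕ, (W : ℝ) * d * d₂ * e = x * e := fun e => by rw [hx]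
  have hxe' : ∀ e : ℕ, (W : ℝ) * d * d₂' * e = x' * e := fun e => by rw [hx']
  rw [sum_congr rfl hterm, sum_add_distrib]
  have hP1 : ‖∑ e ∈ (Ico E (2 * E)).filter (fun e => e.Coprime (q * W * D)),
      ((wk N k (x * e) * wk N k' (x' * e) : ℝ) : ℂ) * ef (((Δ * f e : ℤ) : ℝ) / ((M₀ * M₁ : ℕ) : ℝ))‖ ≤
      4 * w₀ * w₀' * S := by
    have g1 : ∑ e ∈ (Ico E (2 * E)).filter (fun e => e.Coprime (q * W * D)),
      ((wk N k (x * e) * wk N k' (x' * e) : ℝ) : ℂ) * ef (((Δ * f e : ℤ) : ℝ) / ((M₀ * M₁ : ℕ) : ℝ)) =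
        ∑ e ∈ Ico E (2 * E), ((wk N k (x * e) * wk N k' (x' * e) : ℝ) : ℂ) *
          (if e.Coprime (M₀ * M₁) then ef (((Δ * f e : ℤ) : ℝ) / ((M₀ * M₁ : ℕ) : ℝ)) else 0) := by
      rw [sum_filter]
      refine sum_congr rfl fun e _ => ?_
      by_cases h : e.Coprime (M₀ * M₁)
      · rw [if_pos h, if_pos ((hcopiff e).2 h)]
      · rw [if_neg h, if_neg (fun h' => h ((hcopiff e).1 h')), mul_zero]
    rw [g1]
    exact hwks
  have hP2 : ‖∑ e ∈ (Ico E (2 * E)).filter (fun e => e.Coprime (q * W * D)),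
      ((wk N k (x * e) * wk N k' (x' * e) : ℝ) : ℂ) * (ef (((Δ * f e : ℤ) : ℝ) / ((M₀ * M₁ : ℕ) : ℝ)) *
        (ef (Δ / (((M₀ * M₁ : ℕ) : ℝ) * e)) - 1))‖ ≤ 26 * w₀ * w₀' := by
    have g1 : ∀ e ∈ (Ico E (2 * E)).filter (fun e => e.Coprime (q * W * D)),
        ‖((wk N k (x * e) * wk N k' (x' * e) : ℝ) : ℂ) * (ef (((Δ * f e : ℤ) : ℝ) / ((M₀ * M₁ : ℕ) : ℝ)) *
        (ef (Δ / (((M₀ * M₁ : ℕ) : ℝ) * e)) - 1))‖ ≤ w₀ * w₀' * (26 / E) := by
      intro e he
      have he3 := mem_Ico.1 (mem_filter.1 he).1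
      have her : (E : ℝ) ≤ e := by exact_mod_cast he3.1
      have her0 : (0 : ℝ) < e := by linarith
      rw [norm_mul, norm_mul, ef_norm, one_mul, Complex.norm_real, Real.norm_eq_abs, abs_mul]
      have a1 := OFE_wk_le N hN k (x * E) (x * e) (by positivity) (by gcongr)
      have a2 := OFE_wk_le N hN k' (x' * E) (x' * e) (by positivity) (by gcongr)
      rw [abs_of_nonneg a1.1, abs_of_nonneg a2.1]
      refine mul_le_mul (mul_le_mul a1.2 a2.2 a2.1 hw₀0.le) ?_ (norm_nonneg _) (by positivity)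
      refine (OFE_ef_norm_sub_one _).trans ?_
      have z3 : ((M₀ * M₁ : ℕ) : ℝ) = (q : ℝ) ^ 2 * W * D := by push_cast; exact hMr
      rw [z3, abs_div, abs_of_pos (by positivity : (0 : ℝ) < (q : ℝ) ^ 2 * W * D * e)]
      have hΔ4 : |(Δ : ℝ)| ≤ 4 * (W * D) := by
        have hEN : (E : ℝ) ≤ N := by linarith
        have r1 : N * |(Δ : ℝ)| ≤ N * (4 * (W * D)) := by
          calc N * |(Δ : ℝ)| ≤ 4 * (W * E * D) := hΔle
            _ ≤ 4 * (W * N * D) := by gcongr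
            _ = N * (4 * (W * D)) := by ring
        exact le_of_mul_le_mul_left r1 hN
      have hpi : Real.pi < 3.25 := by
        have := Real.pi_lt_d2
        linarith
      calc 2 * Real.pi * (|(Δ : ℝ)| / ((q : ℝ) ^ 2 * W * D * e))
          ≤ 2 * 3.25 * ((4 * (W * D)) / ((1 : ℝ) * W * D * E)) := by
            have q2 : (1 : ℝ) ≤ (q : ℝ) ^ 2 := by nlinarith
            gcongr
        _ = 26 / E := by field_simp; norm_num
    refine (norm_sum_le_of_le _ g1).trans ?_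
    rw [sum_const, nsmul_eq_mul]
    have g2 : (((Ico E (2 * E)).filter (fun e => e.Coprime (q * W * D))).card : ℝ) ≤ E := by
      have := card_filter_le (Ico E (2 * E)) (fun e => e.Coprime (q * W * D))
      rw [Nat.card_Ico] at this
      have h5 : 2 * E - E = E := by omega
      rw [h5] at this
      exact_mod_cast this
    calc (((Ico E (2 * E)).filter (fun e => e.Coprime (q * W * D))).card : ℝ) * (w₀ * w₀' * (26 / E))
        ≤ E * (w₀ * w₀' * (26 / E)) := mul_le_mul_of_nonneg_right g2 (by positivity)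
      _ = 26 * w₀ * w₀' := by field_simp
  refine (norm_add_le _ _).trans ((add_le_add hP1 hP2).trans ?_)
  have hpos1 : 0 ≤ w₀ * w₀' := by positivity
  have h26 : (1 : ℝ) ≤ X ^ eps * (p * q) ^ 4 * G * (E / Real.sqrt D + Real.sqrt D) := by
    have r1 : (1 : ℝ) ≤ E / Real.sqrt D + Real.sqrt D := by
      have : 0 ≤ E / Real.sqrt D := by positivity
      linarith
    have r2 : (1 : ℝ) ≤ (p * q : ℝ) ^ 4 := one_le_pow₀ hpq1
    exact one_le_mul_of_one_le_of_one_le (one_le_mul_of_one_le_of_one_le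
      (one_le_mul_of_one_le_of_one_le hXe r2) hG1) r1
  calc 4 * w₀ * w₀' * S + 26 * w₀ * w₀'
      = 4 * K * W * X ^ eps * (p * q) ^ 4 * G * w₀ * w₀' * (E / Real.sqrt D + Real.sqrt D) +
        26 * (w₀ * w₀') * 1 := by rw [hS]; ring
    _ ≤ 4 * K * W * X ^ eps * (p * q) ^ 4 * G * w₀ * w₀' * (E / Real.sqrt D + Real.sqrt D) +
        26 * (w₀ * w₀') * (X ^ eps * (p * q) ^ 4 * G * (E / Real.sqrt D + Real.sqrt D)) := by
        gcongr
    _ = (4 * K * W + 26) * X ^ eps * (p * q) ^ 4 * G * w₀ * w₀' * (E / Real.sqrt D + Real.sqrt D) := by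
        ring

end Pool.Agent.PT
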