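import Pool.Agent.helper48.PT.KLS
import Pool.Agent.helper44.PT.INA
import Pool.Agent.helper35.PT.INC
import Pool.Agent.helper79.PT.PSM
import Pool.Agent.helper46.PT.WKS
import Pool.Agent.helper77.PT.GCB
import Pool.Agent.helper36.PT.OFE
import Pool.Agent.helper87.PT.GCS
import Pool.Agent.helper64.PT.DGN
import Pool.Agent.helper18.PT.CAU
import Pool.Agent.helper36.PT.BLK
import Pool.Agent.helper61.PT.DYA
import Pool.Agent.helper22.PT.ERS
import Pool.Agent.helper31.PT.ERR
import Pool.Agent.helper90.PT.FEJ
import Pool.Agent.helper23.PT.CLS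
import Pool.Agent.helper95.PT.CEX
import Pool.Agent.helper10.PT.MEA
import Pool.Agent.helper25.PT.PAI
import Pool.Agent.helper50.PT.RPS
import Pool.Agent.helper38.PT.RKN
import Pool.Agent.helper78.PT.SGL
import Pool.Agent.helper52.PT.UBL
import Pool.Agent.helper11.PT.GPR
import Pool.Agent.helper56.PT.COR
import Pool.Agent.helper9.PT.LRG
import Pool.Agent.helper29.PT.CFW
import Pool.Agent.helper37.PT.FAC
import Pool.Agent.helper2.PT.OFP
import Pool.Agent.helper13.PT.OFF
import Pool.Agent.helper17.PT.FMO
import Pool.Agent.helper32.PT.FST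
import Pool.Agent.helper54.PT.DIA
import Pool.Agent.helper34.PT.CONC
import Pool.Agent.helper16.PT.MPS
import Pool.Agent.helper31.PT.NUM
import Pool.Agent.helper31.PT.WTA
import Pool.Agent.helper31.PT.WTB
import Pool.Agent.helper96.PT.WTC
import Pool.Agent.helper31.PT.WTS
import Pool.Agent.helper49.PT.PTW
import Pool.Agent.helper6.PT.PCL
import Pool.Agent.helper83.PT.FNL

/-! # Project PT: assembly -/

namespace Pool.Agent.PT

/-- everything, from Weil's bound modulo primes -/
theorem FNL_of (h : KLP_stmt) : FNL_stmt := by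
  have kls := KLS h
  have inc := INC (INA kls)
  have blk := BLK (OFE inc (WKS PSM) GCB) GCS DGN CAU
  have err := ERR (ERS (DYA blk))
  have cls := CLS FEJ
  have cfw := CFW RPS
  have mea := MEA cls CEX
  have pai := PAI cls CEX
  have ubl := UBL RKN SGL
  have off := OFF (OFP err CEX pai cfw FAC COR LRG GPR)
  have fmo := FMO CEX mea cfw FAC LRG GPR
  have con := CON off (FST ubl fmo LRG GPR cfw) (DIA fmo LRG GPR) cls
  have wts := WTS MPS NUM WTA WTB (WTC MPS)
  exact FNL (PCL con wts PTW)

end Pool.Agent.PT
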