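import Pool.Agent.helper36.PT.Defs

/-! # Project PT (MP_ad8ced_nt): rows

THEOREM.  For every `ε > 0` there are `c, C > 0`, `X₀`: for `X ≥ X₀`, `C log X log log X ≤ P ≤ X ^ (1 / 10000)`, all but `ε X`
of the even `a ≤ X` with `a ≢ 1` modulo `3` have `≥ c P / (log P log X)` primes `p ≤ P` such that `a p² - 1` has at most TWO
prime factors, all larger than `X ^ (13 / 100)`.

PLAN.  Classes `a ≡ a₀`, `p ≡ b` modulo `W = primorial w`.  `X ^ η`: border between the small primes `Qm` (Selberg's square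
`Sg ^ 2` of level `R = X ^ (1 / 100000)`) and the large ones `Ql` (a nonnegative divisor sum `U ξ`).  Three choices of `ξ`
(row WTS): `U₁ - U₂` = Rosser's lower bound weights of level `X ^ 0.553`, `U₃` = Richert's logarithmic weights, upper bound
weights of level `X ^ 0.553 / q`, and for `q > X ^ 0.445` of level `X ^ 0.499 / q`.  Each `∑_p ft` is concentrated at its mean (CON): second
moment over `a` with the weight `Fz` (Fejér), whose main terms are exact (FEJ, CLS, MEA, PAI), and whose frequencies are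
estimated with Kloosterman sums (ERR): for a pair `(D, E)` of divisors of `a p² - 1`, `a q² - 1`, Cauchy's inequality with
`d₁, e` outside and `d₂, k` inside (`D = d₁ d₂` cut by the well factorable weights), then the sum over `e` is an incomplete
Kloosterman sum modulo `q² W d₁ [d₂, d₂']`.

RULES.  Row `XX`: file `Pool/Agent/<seat>/PT/XX.lean`, `import Pool.Agent.helper36.PT.Spec` (and other Pool files if you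
want), `namespace Pool.Agent.PT`, `open Finset Pool.Agent.helper71.AA`, `theorem XX (h1 : YY_stmt) ... : XX_stmt` with only the
hypotheses named after `From` (in this order); auxiliary lemmas prefixed `XX_`.  No `convert`, no `congr!`, no kernel-free decision procedure,
no straight double quotes.  Definitions and basic facts (`ef_add`, `ef_int`, `EN_add`, `EN_mono`, `Bd.az`, ...): `PT/Defs.lean`. From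
project AA (files `Pool/Agent/*/AA/*.lean`, all imported by Defs): `Sg_struct`, `Sg_abs`, `Ex_Sg_one`, `Ex_Sg_empty`, `Ex_Sg_le`, `Rep_Ex`, `Th_empty`,
`Th_Ff`, `corr_id`, `corr_le`, `C1_crt`, `C1_inv`, `C1_rep`, `Gs_le`, `pair_avg`, `Ps_lower`, `mert_log`, `mert_inv`, `L1_*`, `K4_*`.
-/

set_option autoImplicit false

namespace Pool.Agent.PT

open Finset Pool.Agent.helper71.AA

/-! ## Part A: Kloosterman sums -/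

/-- **KLP** (helper82). Weil's bound for Kloosterman sums modulo a prime (for `k = 0` the sum is `-1`). -/
def KLP_stmt : Prop := ∀ (l : ℕ) [Fact l.Prime] (m k : ZMod l), m ≠ 0 →
  ‖∑ x : (ZMod l)ˣ, ZMod.stdAddChar (m * ((x⁻¹ : (ZMod l)ˣ) : ZMod l) + k * (x : ZMod l))‖ ≤ 2 * Real.sqrt l

/-- **KLS** (From KLP; medium). Induction over the squarefree `M` (`M = 1`: one term; `M = l M'` with `l` prime, coprime). With integers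
`u M' + v l = 1`: `x / (l M') = u x / l + v x / M'` modulo `1` (`ZMod.stdAddChar_coe`), and the Chinese remainder theorem
`(ZMod (l M'))ˣ ≃ (ZMod l)ˣ × (ZMod M')ˣ` (`ZMod.chineseRemainder`, `Units.mapEquiv`, `MulEquiv.prodUnits`) factor the sum in those modulo `l`
for `(u m, u k)` and modulo `M'` for `(v m, v k)`; `u` is a unit modulo `l`, `v` modulo `M'`. -/
def KLS_stmt : Prop := ∀ (M : ℕ) [NeZero M], Squarefree M → ∀ m k : ZMod M, IsUnit m →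
  ‖∑ x : (ZMod M)ˣ, ZMod.stdAddChar (m * ((x⁻¹ : (ZMod M)ˣ) : ZMod M) + k * (x : ZMod M))‖ ≤
    2 ^ M.primeFactors.card * Real.sqrt M

/-- **INA** (From KLS; medium). Incomplete sums over an arithmetic progression. `f(x) = stdAddChar (m x⁻¹)` for units `x`, `0` otherwise.
The sum is `∑_i f(r + M₀ i)` (for `r + M₀ i` a unit `j i ≡ m (r + M₀ i)⁻¹`). `1_{x = y} = (1/M₁) ∑_h stdAddChar (h (x - y))`, so it equals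
`(1/M₁) ∑_h (∑_x f(x) stdAddChar(h x)) (∑_(i ∈ Ico u v) stdAddChar(- h (r + M₀ i)))`. The first factor is `≤ 2 ^ ω √M₁` (KLS for
all `h`). The second is `≤ v - u` for `h = 0`, and for `h ≠ 0` a geometric sum, `≤ 1 / |sin (π h M₀ / M₁)| ≤ M₁ / (2 h')`, `h' ∈ [1, M₁ / 2]` the distance of
`h M₀` to the multiples of `M₁` (each `h'` occurs at most twice as `M₀` is a unit). `∑_(h' ≤ M₁ / 2) 1 / h' ≤ 1 + log M₁`. -/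
def INA_stmt : Prop := ∀ (M₀ M₁ r u v : ℕ), 0 < M₁ → M₀.Coprime M₁ → Squarefree M₁ → u ≤ v →
  ∀ m : ℤ, IsCoprime m (M₁ : ℤ) → ∀ j : ℕ → ℤ,
  (∀ i ∈ Ico u v, (r + M₀ * i).Coprime M₁ → (M₁ : ℤ) ∣ (r + M₀ * i) * j i - m) →
  ‖∑ i ∈ (Ico u v).filter (fun i => (r + M₀ * i).Coprime M₁), ef (j i / M₁)‖ ≤
    2 ^ M₁.primeFactors.card * Real.sqrt M₁ * ((v - u) / M₁ + 1 + Real.log M₁)

/-- **INC** (From INA; medium). Integers `s M₁ + s' M₀ = 1`: `j / (M₀ M₁) = s j / M₀ + s' j / M₁` modulo `1`. Split in the classes `e ≡ r` modulo `M₀` (`r < M₀`,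
coprime to `M₀`, otherwise the filter is empty): `e = r + M₀ i`, `i` in an interval `Ico u' v'` with `v' - u' ≤ (v - u) / M₀ + 1`. In a class `j e` modulo `M₀` is constant
(`e (j e) ≡ m`, `e` invertible), so `ef (s j / M₀)` is constant of norm `1`. INA for `m' = s' m`, `j' = s' j`. Sum over `≤ M₀` classes. (`(1 / M₁ ≤ 1`.) -/
def INC_stmt : Prop := ∀ (M₀ M₁ u v : ℕ), 0 < M₀ → 0 < M₁ → M₀.Coprime M₁ → Squarefree M₁ → u ≤ v →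
  ∀ m : ℤ, IsCoprime m (M₁ : ℤ) → ∀ j : ℕ → ℤ,
  (∀ e ∈ Ico u v, e.Coprime (M₀ * M₁) → ((M₀ * M₁ : ℕ) : ℤ) ∣ e * j e - m) →
  ‖∑ e ∈ (Ico u v).filter (fun e => e.Coprime (M₀ * M₁)), ef (j e / ((M₀ * M₁ : ℕ) : ℝ))‖ ≤
    2 ^ M₁.primeFactors.card * ((v - u) / Real.sqrt M₁ + M₀ * Real.sqrt M₁ * (2 + Real.log M₁))

/-- **PSM** (short). Abel summation: with `A n = ∑_(Ico u n) a`, `∑ f a = ∑_(n, n + 1 < v) (f n - f (n+1)) A (n+1) + f (v-1) A v`, of norm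
`≤ S f u ≤ S F`. (Induction on `v`: the claim with `F` replaced by `f u`... or `Finset.sum_range_by_parts`.) -/
def PSM_stmt : Prop := ∀ (a : ℕ → ℂ) (f : ℕ → ℝ) (u v : ℕ) (F S : ℝ), 0 ≤ F → u ≤ v →
  (∀ n ∈ Ico u v, 0 ≤ f n ∧ f n ≤ F) → (∀ n, u ≤ n → n + 1 < v → f (n + 1) ≤ f n) →
  (∀ v', u ≤ v' → v' ≤ v → ‖∑ n ∈ Ico u v', a n‖ ≤ S) → ‖∑ n ∈ Ico u v, (f n : ℂ) * a n‖ ≤ F * S

/-- **WKS** (From PSM; medium). `wk N k (x e) = 0` if `x e ≤ N |k|`, otherwise it is `g₁ - g₂` with `g₁ = N / (x e)`,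
`g₂ = N² |k| / (x e)² ≤ g₁`, both nonnegative, antitone in `e`, `≤ N / (x u)`. The same for `k'`, `x'`. So the product vanishes for `e` below some `u'`
and for `e ≥ u'` is a combination with signs of four products `g_i g'_j`, nonnegative, antitone, `≤ N / (x u) * (N / (x' u))`. PSM on `Ico (max u u') v`. -/
def WKS_stmt : Prop := ∀ (N x x' S : ℝ) (k k' : ℤ) (u v : ℕ) (a : ℕ → ℂ), 0 < N → 0 < x → 0 < x' → 1 ≤ u →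
  u ≤ v → (∀ u' v', u ≤ u' → u' ≤ v' → v' ≤ v → ‖∑ n ∈ Ico u' v', a n‖ ≤ S) →
  ‖∑ e ∈ Ico u v, ((wk N k (x * e) * wk N k' (x' * e) : ℝ) : ℂ) * a e‖ ≤ 4 * (N / (x * u)) * (N / (x' * u)) * S

/-- **GCB** (short, medium). `M₁` = the product of the primes `l ∣ D` not dividing `q Δ (q² - p²)`, `M₀ = q² W D / M₁`. For `l ∣ M₁`:
`p² (q² c - 1) ≡ q² - p²` modulo `l` (`p² c ≡ 1`), so `l ∤ q² c - 1`. `D / M₁` is squarefree and each prime factor divides `q`, `gcd (Δ, D)` or `|q² - p²|`, so it divides the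
product of the three. Coprimality: `l ∣ M₁` gives `l ∤ W`, `l ∤ q`, `l ∤ D / M₁` (`D` squarefree). -/
def GCB_stmt : Prop := ∀ (W p q D : ℕ) (c Δ : ℤ), 0 < W → p.Prime → q.Prime → p ≠ q → 0 < D → Squarefree D →
  D.Coprime W → D.Coprime p → (D : ℤ) ∣ p ^ 2 * c - 1 → Δ ≠ 0 →
  ∃ M₀ M₁ : ℕ, M₀ * M₁ = q ^ 2 * W * D ∧ M₀.Coprime M₁ ∧ Squarefree M₁ ∧ M₁ ∣ D ∧
    IsCoprime (Δ * (q ^ 2 * c - 1)) (M₁ : ℤ) ∧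
    (M₀ : ℝ) ≤ W * q ^ 3 * (p * q) ^ 2 * (Int.gcd Δ D : ℝ)

/-- the difference of the frequencies -/
def Del (d d' : ℕ) (k k' : ℤ) : ℤ := k * ((d' / d.gcd d' : ℕ) : ℤ) - k' * ((d / d.gcd d' : ℕ) : ℤ)

/-- **OFE** (From INC, WKS, GCB; medium long). The sum over `e`. `D = d [d₂, d₂']`, `g = gcd (d₂, d₂')`, `Δ = Del d₂ d₂' k k'`, `w₀ = N / (W d d₂ E)`, `w₀' = N / (W d d₂' E)`.
If `|k| N ≥ 2 W d d₂ E` then all weights are `0`; the same for `k'`; otherwise `|Δ| ≤ 4 W d E [d₂, d₂'] / N = 4 W E D / N ≤ 4 W D`. Choose `c₀` with `W ∣ c₀ - a₀`,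
`D ∣ p² c₀ - 1` and for `e` coprime to `q W D` an integer `c₁ e ≡ c₀` modulo `W D`, `q² (c₁ e) ≡ 1` modulo `e`. Then `c e ≡ c₁ e` modulo `W d d₂ e`, `c' e ≡ c₁ e` modulo `W d d₂' e`, so the product of the
two phases is `ef (Δ c₁ / (W D e))`. Let `q² (c₁ e) - 1 = e (f e)`: `c₁ = (e f + 1) / q²`, the phase is `ef (Δ f / (q² W D)) ef (Δ / (q² W D e))`, the second factor is `1 + O(7 |Δ| / (D e))`, total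
contribution `≤ 7 * 4 W w₀ w₀'`. `e (Δ f e) ≡ Δ (q² c₀ - 1)` modulo `q² W D` (`q² c₁ ≡ q² c₀` modulo `q² W D`). GCB for `c₀`: `M = M₀ M₁ = q² W D`, and INC for `j e = Δ (f e)` on every `Ico u' v'`:
`≤ 2 ^ ω(M₁) (E / √M₁ + M₀ √M₁ (2 + log M₁))`, `√M₁ = √(M / M₀)`, so `M₀ √M₁ = √(M₀ M) ≤ W (p q) ^ 4 √gcd √D`, `E / √M₁ = E √(M₀ / M) ≤ E (p q) ^ 4 √gcd / √D`;
`2 ^ ω(M₁) ≤ τ(M₁)`, `card_divisors_le` (Pool/Agent/helper47/RA/Num.lean), `M₁ ≤ D ≤ 8 X ^ 3`. WKS with `S` this bound (and `a n = 0` for `n` not coprime to `q W D`). -/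
def OFE_stmt : Prop := ∀ eps : ℝ, 0 < eps → ∀ W : ℕ, 0 < W → ∃ C : ℝ, 0 < C ∧ ∀ (X N : ℝ), 1 ≤ X → X ≤ N →
  ∀ p q : ℕ, p.Prime → q.Prime → p ≠ q → p.Coprime W → q.Coprime W → ∀ (a₀ : ℤ) (d d₂ d₂' E : ℕ) (k k' : ℤ),
  0 < d → (d : ℝ) ≤ 2 * X → (d₂ : ℝ) ≤ 2 * X → (d₂' : ℝ) ≤ 2 * X → 1 ≤ E → (E : ℝ) ≤ X →
  Squarefree (d * d₂) → Squarefree (d * d₂') → (d * d₂).Coprime (p * W) → (d * d₂').Coprime (p * W) →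
  Del d₂ d₂' k k' ≠ 0 → ∀ c c' : ℕ → ℤ,
  (∀ e ∈ Ico E (2 * E), e.Coprime (q * W * (d * d₂.lcm d₂')) →
    (W : ℤ) ∣ c e - a₀ ∧ ((d * d₂ : ℕ) : ℤ) ∣ p ^ 2 * c e - 1 ∧ (e : ℤ) ∣ q ^ 2 * c e - 1 ∧
    (W : ℤ) ∣ c' e - a₀ ∧ ((d * d₂' : ℕ) : ℤ) ∣ p ^ 2 * c' e - 1 ∧ (e : ℤ) ∣ q ^ 2 * c' e - 1) →
  ‖∑ e ∈ (Ico E (2 * E)).filter (fun e => e.Coprime (q * W * (d * d₂.lcm d₂'))),
      ((wk N k (W * d * d₂ * e) * wk N k' (W * d * d₂' * e) : ℝ) : ℂ) *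
        (ef (k * c e / (W * d * d₂ * e)) * ef (-(k' * c' e / (W * d * d₂' * e))))‖ ≤
    C * X ^ eps * (p * q) ^ 4 * Real.sqrt (Int.gcd (Del d₂ d₂' k k') (d * d₂.lcm d₂' : ℕ)) *
      (N / (W * d * d₂ * E)) * (N / (W * d * d₂' * E)) *
      (E / Real.sqrt (d * d₂.lcm d₂' : ℕ) + Real.sqrt (d * d₂.lcm d₂' : ℕ))

/-- **GCS** (medium). `G = gcd (d₂, d₂')`. `gcd (Δ, d [d₂, d₂']) ≤ gcd (Δ, d) gcd (Δ, [d₂, d₂'])`, and (`G Δ = k d₂' - k' d₂`) the second factor is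
`≤ gcd (G Δ, d₂) gcd (G Δ, d₂') = gcd (k d₂', d₂) gcd (k' d₂, d₂')`; `√(x y) ≤ (x + y) / 2`. For `n ≠ 0`: `∑_(d ∈ Ico A (2A)) gcd (n, d) ≤ ∑_(f ∣ n, f < 2A) f (A / f + 1) ≤ 3 A τ(|n|)`, and
`τ(n) ≤ C n ^ eps'` (`card_divisors_le`, Pool/Agent/helper47/RA/Num.lean). So the sum over `d` of `√gcd (Δ, d) ≤ gcd (Δ, d)` is `≤ C X ^ (3 eps') A`, and the sum over `d₂` (resp. `d₂'`) of
`gcd (k d₂', d₂)` (resp. `gcd (k' d₂, d₂')`) is `≤ C X ^ (3 eps') B`. -/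
def GCS_stmt : Prop := ∀ eps : ℝ, 0 < eps → ∃ C : ℝ, 0 < C ∧ ∀ X : ℝ, 1 ≤ X → ∀ A B H : ℕ, 1 ≤ A → 1 ≤ B →
  (A : ℝ) ≤ X → (B : ℝ) ≤ X → (H : ℝ) ≤ X →
  ∑ d ∈ Ico A (2 * A), ∑ d₂ ∈ Ico B (2 * B), ∑ k ∈ Kr H, ∑ d₂' ∈ Ico B (2 * B), ∑ k' ∈ Kr H,
    (if Del d₂ d₂' k k' ≠ 0 then
      Real.sqrt (Int.gcd (Del d₂ d₂' k k') (d * d₂.lcm d₂' : ℕ)) else 0) ≤
    C * X ^ eps * A * (H * B) ^ 2

/-- **DGN** (short). `Del = 0` iff `k d₂' = k' d₂`. For given `(k, d₂')` `d₂` is one of the `≤ τ(|k d₂'|)` divisors of `k d₂' ≠ 0` and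
`k'` is determined. `card_divisors_le`. -/
def DGN_stmt : Prop := ∀ eps : ℝ, 0 < eps → ∃ C : ℝ, 0 < C ∧ ∀ X : ℝ, 1 ≤ X → ∀ B H : ℕ, 1 ≤ B →
  (B : ℝ) ≤ X → (H : ℝ) ≤ X →
  ∑ d₂ ∈ Ico B (2 * B), ∑ k ∈ Kr H, ∑ d₂' ∈ Ico B (2 * B), ∑ k' ∈ Kr H,
    (if Del d₂ d₂' k k' = 0 then (1 : ℝ) else 0) ≤ C * X ^ eps * (H * B)

/-- **CAU** (short). Cauchy's inequality over the pairs `(d, e)` and expansion of the square. -/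
def CAU_stmt : Prop := ∀ (ι : Type) [DecidableEq ι] (S T : Finset ℕ) (J : Finset ι) (β : ℕ → ℝ)
  (u : ℕ → ℕ → ι → ℂ), (∀ e, |β e| ≤ 1) →
  ‖∑ d ∈ S, ∑ e ∈ T, (β e : ℂ) * ∑ i ∈ J, u d e i‖ ^ 2 ≤
    S.card * T.card * ∑ d ∈ S, ∑ i ∈ J, ∑ i' ∈ J, ‖∑ e ∈ T, u d e i * (starRingEnd ℂ) (u d e i')‖

/-- **BLK** (From OFE, GCS, DGN, CAU; medium long). `H = ⌊8 W A B E / N⌋₊`; for `m = W d₁ d₂ e < 8 W A B E` (and `N ≥ 1`) `Fr N m c = ∑_(k ∈ Kr H) wk N k m ef (k c / m)` (in both sums the other terms are `0`: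
`wk N k m = 0` if `N |k| ≥ m`). If `H = 0` the sum is `0`. CAU with `d = d₁`, `S = Ico A (2A)`, `T` = the `e ∈ Ico E (2E)` coprime to `q W`, `ι = ℕ × ℤ`, `J = Ico B (2B) ×ˢ Kr H`, `u d e (d₂, k) = γ [e coprime to d d₂] wk ef`. For `(d₂, k)`,
`(d₂', k')` with `γ d d₂, γ d d₂' ≠ 0` the sum over `e` is over the `e` coprime to `q W d [d₂, d₂']`. Put `w₀ = N / (W A B E)`. `Del = 0`: trivially `≤ E w₀²`, number: DGN, total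
`A E * A * C X^ε H B * E w₀² ≤ C X^ε N A E` (`H ≤ 8 W A B E / N`). `Del ≠ 0`: OFE and GCS, `A B ≤ D = d [d₂, d₂'] ≤ 8 A B²`, `≤ A E * C X^ε (p q)^4 w₀² (E / √(A B) + 3 √A B) * A (H B)²`, and `H w₀ ≤ 8`.
(Take `eps / 4` in the other rows; `H ≤ 16 W X ^ 3`, so use GCS, DGN with `X` replaced by `16 W X ^ 3`.) -/
def BLK_stmt : Prop := ∀ eps : ℝ, 0 < eps → ∀ W : ℕ, 0 < W → ∃ C : ℝ, 0 < C ∧ ∀ (X N : ℝ), 1 ≤ X → X ≤ N →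
  N ≤ 2 * X → ∀ p q : ℕ, p.Prime → q.Prime → p ≠ q → p.Coprime W → q.Coprime W →
  ∀ (a₀ : ℤ) (A B E : ℕ), 1 ≤ A → 1 ≤ B → 1 ≤ E → (A : ℝ) ≤ X → (B : ℝ) ≤ X → (E : ℝ) ≤ X →
  ∀ (γ : ℕ → ℕ → ℝ) (β : ℕ → ℝ) (c : ℕ → ℕ → ℕ → ℤ), (∀ d₁ d₂, |γ d₁ d₂| ≤ 1) → (∀ e, |β e| ≤ 1) →
  (∀ d₁ d₂, γ d₁ d₂ ≠ 0 → Squarefree (d₁ * d₂) ∧ (d₁ * d₂).Coprime (p * W)) →
  (∀ e, β e ≠ 0 → e.Coprime (q * W)) →
  (∀ d₁ d₂ e, γ d₁ d₂ ≠ 0 → 0 < e → e.Coprime (q * W * (d₁ * d₂)) → Cg W p q a₀ (d₁ * d₂) e (c d₁ d₂ e)) →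
  ‖∑ d₁ ∈ Ico A (2 * A), ∑ d₂ ∈ Ico B (2 * B), ∑ e ∈ Ico E (2 * E),
      (if e.Coprime (d₁ * d₂) then
        (γ d₁ d₂ * β e : ℝ) * Fr N (W * (d₁ * d₂) * e) (c d₁ d₂ e) else 0)‖ ^ 2 ≤
    C * X ^ eps * (N * A * E + (p * q) ^ 4 *
      ((A : ℝ) ^ (5 / 2 : ℝ) * (B : ℝ) ^ 3 * E + (A : ℝ) ^ (3 / 2 : ℝ) * (B : ℝ) ^ (3 / 2 : ℝ) * (E : ℝ) ^ 2))

/-- **DYA** (From BLK; medium). Dyadic decomposition: every `d₁ ≥ 1` is in exactly one `Ico (2^i) (2^(i+1))`, the same for `d₂`, `e`; `i, j, k ≤ log X / log 2`. In a block with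
a nonzero term `A = 2^i ≤ X ^ 0.4451`, `B ≤ X ^ 0.108`, `E ≤ X ^ 0.5531`, and `(p q)^4 ≤ X ^ 0.0008`; exponents: `1 + 0.4451 + 0.5531 = 1.9982`,
`0.0008 + 2.5 * 0.4451 + 0.324 + 0.5531 = 1.99065`, `0.0008 + 1.5 * 0.4451 + 0.162 + 1.1062 < 1.94`. So a block is `≤ C X ^ (0.9991 + eps)` and there are `≤ (2 log X + 1) ^ 3`. -/
def DYA_stmt : Prop := ∀ W : ℕ, 0 < W → ∃ X₀ : ℝ, ∀ X : ℝ, X₀ ≤ X →
  ∀ p q : ℕ, p.Prime → q.Prime → p ≠ q → p.Coprime W → q.Coprime W → (p : ℝ) ≤ X ^ (0.0001 : ℝ) →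
  (q : ℝ) ≤ X ^ (0.0001 : ℝ) → ∀ (a₀ : ℤ) (L : ℕ) (γ : ℕ → ℕ → ℝ) (β : ℕ → ℝ) (c : ℕ → ℕ → ℕ → ℤ),
  (∀ d₁ d₂, |γ d₁ d₂| ≤ 1) → (∀ e, |β e| ≤ 1) →
  (∀ d₁ d₂, γ d₁ d₂ ≠ 0 → Squarefree (d₁ * d₂) ∧ (d₁ * d₂).Coprime (p * W) ∧
    (d₁ : ℝ) ≤ X ^ (0.4451 : ℝ) ∧ (d₂ : ℝ) ≤ X ^ (0.108 : ℝ)) →
  (∀ e, β e ≠ 0 → 0 < e ∧ e.Coprime (q * W) ∧ (e : ℝ) ≤ X ^ (0.5531 : ℝ)) →
  (∀ d₁ d₂ e, γ d₁ d₂ ≠ 0 → 0 < e → e.Coprime (q * W * (d₁ * d₂)) → Cg W p q a₀ (d₁ * d₂) e (c d₁ d₂ e)) →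
  ‖∑ d₁ ∈ Icc 1 L, ∑ d₂ ∈ Icc 1 L, ∑ e ∈ Icc 1 L,
      (if e.Coprime (d₁ * d₂) then
        (γ d₁ d₂ * β e : ℝ) * Fr (2 * X) (W * (d₁ * d₂) * e) (c d₁ d₂ e) else 0)‖ ≤ X ^ (0.9993 : ℝ)

/-- `c` is a class for the pair of sets -/
def Cs (w p q : ℕ) (a₀ : ℤ) (D E : Finset ℕ) (c : ℤ) : Prop :=
  ((primorial w : ℕ) : ℤ) ∣ c - a₀ ∧ (∀ l ∈ D, (l : ℤ) ∣ c * p ^ 2 - 1) ∧ ∀ l ∈ E, (l : ℤ) ∣ c * q ^ 2 - 1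

/-- the error term for a pair of coefficient functions -/
noncomputable def Er (w : ℕ) (X : ℝ) (Q : Finset ℕ) (p q : ℕ) (ξ ζ : Finset ℕ → ℝ)
    (c : Finset ℕ → Finset ℕ → ℤ) : ℂ :=
  ∑ D ∈ (Q.erase p).powerset, ∑ E ∈ (Q.erase q).powerset,
    if D ∩ E ⊆ Nn Q p q then
      ((ξ D * ζ E : ℝ) : ℂ) * Fr (2 * X) (primorial w * ∏ l ∈ D ∪ E, l) (c D E) else 0

/-- **ERS** (From DYA; medium long). All `D` with `ξ D ≠ 0` have a cut. Put `B = X ^ 0.0001`. Choose for each such `D` a cut `D₁` and put `d₁ = ∏ D₁`, `d₂ = ∏ (D \ D₁)`. Sum over `G = D ∩ E ⊆ Nn Q p q`: `E = G ∪ E'`,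
`E'` disjoint from `D` and `G ⊆ D`. The number of `G` is `≤ 2 ^ #Nn ≤ ∏_(l ∈ Nn) l ≤ |p² - q²| ≤ X ^ 0.0002` (`Nn` is a set of primes dividing `p² - q² ≠ 0`). For fixed `G`: `γ d₁ d₂ = ξ D / B` for `D = primeFactors (d₁ d₂)` if `ξ D ≠ 0`,
`D ⊆ Q.erase p`, `G ⊆ D` and the cut of `D` is `(primeFactors d₁, primeFactors d₂)` with `d₁ = ∏ D₁`, `d₂ = ∏ (D \ D₁)`, otherwise `0`; `β e = ζ (G ∪ primeFactors e) / B` if `e ≥ 1` is squarefree, its prime factors are in `Q.erase q` and not in `G`,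
otherwise `0` (`|.| ≤ 1`; `e ≤ pr E ≤ X ^ 0.5531`); the class `c` for all `e` from `Cg_exists` (it agrees modulo `W d₁ d₂ e` with `c D (G ∪ primeFactors e)` where `β e ≠ 0`: `Cg_unique`, `Fr_congr`); `∏_(D ∪ E) l = d₁ d₂ e`; a set of primes is determined by its product. DYA with a large `L`: each `G` contributes
`≤ B² X ^ 0.9993`. `X ^ 0.0002 * X ^ 0.0002 * X ^ 0.9993 = X ^ 0.9997`. -/
def ERS_stmt : Prop := ∀ w : ℕ, ∃ X₀ : ℝ, ∀ X : ℝ, X₀ ≤ X →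
  ∀ p q : ℕ, p.Prime → q.Prime → p ≠ q → w < p → w < q → (p : ℝ) ≤ X ^ (0.0001 : ℝ) →
  (q : ℝ) ≤ X ^ (0.0001 : ℝ) → ∀ (a₀ : ℤ) (Q : Finset ℕ) (ξ ζ : Finset ℕ → ℝ),
  (∀ l ∈ Q, l.Prime ∧ w < l) → Cof w X p ξ → Cof w X q ζ →
  (∀ D, ξ D ≠ 0 → ∃ D₁ ⊆ D, pr D₁ ≤ X ^ (0.4451 : ℝ) ∧ pr (D \ D₁) ≤ X ^ (0.108 : ℝ)) →
  ∀ c : Finset ℕ → Finset ℕ → ℤ, (∀ D ⊆ Q.erase p, ∀ E ⊆ Q.erase q, D ∩ E ⊆ Nn Q p q →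
    Cs w p q a₀ D E (c D E)) → ‖Er w X Q p q ξ ζ c‖ ≤ X ^ (0.9997 : ℝ)

/-- **ERR** (From ERS; medium). `ξ = ξ' + ξ''` with `ξ' D = ξ D` if `D` has a cut, `ξ''` the rest (then `pr D ≤ X ^ 0.4991`), `ζ = ζ' + ζ''` in the same way. `Er ξ' ζ`: ERS. `Er ξ'' ζ'`: exchange `p` and `q` (`Nn Q p q = Nn Q q p`, the class is
`c E D`, `D ∪ E = E ∪ D`): ERS. `Er ξ'' ζ'' = 0`: `m = W ∏_(D ∪ E) l ≤ W X ^ 0.9982 ≤ 2 X` gives `Fr (2 X) m c = 0` (`wk N k m = 0` for `|k| ≥ 1`, `m ≤ N`). `2 X ^ 0.9997 ≤ X ^ 0.9998`. -/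
def ERR_stmt : Prop := ∀ w : ℕ, ∃ X₀ : ℝ, ∀ X : ℝ, X₀ ≤ X →
  ∀ p q : ℕ, p.Prime → q.Prime → p ≠ q → w < p → w < q → (p : ℝ) ≤ X ^ (0.0001 : ℝ) →
  (q : ℝ) ≤ X ^ (0.0001 : ℝ) → ∀ (a₀ : ℤ) (Q : Finset ℕ) (ξ ζ : Finset ℕ → ℝ),
  (∀ l ∈ Q, l.Prime ∧ w < l) → Cof w X p ξ → Cof w X q ζ →
  ∀ c : Finset ℕ → Finset ℕ → ℤ, (∀ D ⊆ Q.erase p, ∀ E ⊆ Q.erase q, D ∩ E ⊆ Nn Q p q →
    Cs w p q a₀ D E (c D E)) → ‖Er w X Q p q ξ ζ c‖ ≤ X ^ (0.9998 : ℝ)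

/-! ## Part B: the weighted sums -/

/-- **FEJ** (medium). For `|x| ≤ 1`: `∑_(n ≥ 1) cos (2 π n x) / n² = π² (x² - |x| + 1/6)` (`hasSum_one_div_nat_pow_mul_cos` with `k = 1`, `bernoulli 2`; see also `hasSum_one_div_pow_mul_fourier...`; for `x < 0` the cosine is even). For `n ≠ 0`
`Fz N n = (N / (π n))² (1 - cos (2 π n / N)) / 2` and `cos (2 π n / N) cos (2 π n θ) = (cos (2 π n (θ + 1/N)) + cos (2 π n (θ - 1/N))) / 2`, so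
`∑_(n ≥ 1) Fz N n cos (2 π n θ) = (N² / 2) (θ² - |θ| - ((θ+1/N)² - |θ+1/N| + (θ-1/N)² - |θ-1/N|) / 2) = -1/2 + (N / 2) max 0 (1 - N |θ|)` (`(|θ+h| + |θ-h|) / 2 = max |θ| h`). The sum over
`ℤ` (`HasSum.of_nat_of_neg_add_one` or similar; `n` and `-n` together give `2 cos`) is `1 + 2 (..)`. -/
def FEJ_stmt : Prop := ∀ N θ : ℝ, 2 ≤ N → |θ| ≤ 1 / 2 →
  HasSum (fun a : ℤ => (Fz N a : ℂ) * ef (a * θ)) ((N * Tri (N * θ) : ℝ) : ℂ)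

/-- **CLS** (From FEJ; medium short). `1_(m ∣ a - c) = (1/m) ∑_r ef (r (c - a) / m)` over the `m` residues `r` with `-m < 2 r ≤ m`. So the sum is `(1/m) ∑_r ef (r c / m) N Tri (N r / m)` (FEJ for `θ = -r/m`, `Tri` is even):
`r = 0` gives `N / m`, `r ≠ 0` gives `wk N r m ef (r c / m)`; the other `k ∈ Icc (-m) m` have `2 |k| ≥ m`, so `N |k| / m ≥ 1` and `wk N k m = 0`. -/
def CLS_stmt : Prop := ∀ (N : ℝ) (m : ℕ) (c : ℤ), 2 ≤ N → 0 < m →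
  ((∑' a : ℤ, (if (m : ℤ) ∣ a - c then Fz N a else 0) : ℝ) : ℂ) = ((N / m : ℝ) : ℂ) + Fr N m c

/-- **CEX** (short, medium). Chinese remainder theorem over `ℤ` (compare `C1_crt`, `C1_inv`, `C1_ne`, `C1_eq`, Pool/Agent/helper33/AA/C1.lean). For `l ∈ D` (`l ≠ p`) the condition `l ∣ a p² - 1` is a class modulo `l`; for `l ∈ D ∩ E` with
`l ∣ p² - q²` the two conditions agree; for `l ∈ D ∩ E`, `l ∤ p² - q²` they exclude each other (`a (p² - q²) ≡ 0`, so `l ∣ a`, `l ∣ 1`). -/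
def CEX_stmt : Prop := ∀ (w : ℕ) (a₀ : ℤ) (Q : Finset ℕ) (p q : ℕ), (∀ l ∈ Q, l.Prime ∧ w < l) → p.Prime → q.Prime →
  ∀ D ⊆ Q.erase p, ∀ E ⊆ Q.erase q,
  (D ∩ E ⊆ Nn Q p q → (∃ c : ℤ, Cs w p q a₀ D E c) ∧ ∀ c : ℤ, Cs w p q a₀ D E c → ∀ a : ℤ,
    (((primorial w : ℕ) : ℤ) ∣ a - a₀ ∧ D ⊆ Az Q p a ∧ E ⊆ Az Q q a) ↔
      ((primorial w * ∏ l ∈ D ∪ E, l : ℕ) : ℤ) ∣ a - c) ∧
  (¬ D ∩ E ⊆ Nn Q p q → ∀ a : ℤ, ¬ (D ⊆ Az Q p a ∧ E ⊆ Az Q q a))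

/-- **MEA** (From CLS, CEX; medium). `Az Q p a ⊆ Q.erase p` (`p ∤ a p² - 1`), so `F (Az Q p a) = ∑_(D ⊆ Az) ξ D`. CEX with `q = p`, `E = ∅` (`Nn` plays no role) for `D ∪ L`: the `a` are a class modulo `m = W pr (D ∪ L) ≤ N`, and `Fr N m c = 0` as
`wk N k m = 0` for `|k| ≥ 1`. `EN_sum`. -/
def MEA_stmt : Prop := ∀ (w : ℕ) (a₀ : ℤ) (N : ℝ) (Q : Finset ℕ) (p : ℕ) (F ξ : Finset ℕ → ℝ) (L : Finset ℕ),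
  2 ≤ N → (∀ l ∈ Q, l.Prime ∧ w < l) → p.Prime → Rep (Q.erase p) F ξ → L ⊆ Q.erase p →
  (∀ D ⊆ Q.erase p, ξ D ≠ 0 → (primorial w : ℝ) * pr (D ∪ L) ≤ N) →
  EN (primorial w) a₀ N (fun a => if L ⊆ Az Q p a then F (Az Q p a) else 0) =
    N / (primorial w : ℝ) * ∑ D ∈ (Q.erase p).powerset, ξ D / pr (D ∪ L)

/-- **PAI** (From CLS, CEX; medium). As MEA: `F (Az Q p a) F' (Az Q q a) = ∑_D ∑_E ξ D ζ E 1_(D ⊆ Az Q p a) 1_(E ⊆ Az Q q a)`. -/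
def PAI_stmt : Prop := ∀ (w : ℕ) (a₀ : ℤ) (X : ℝ) (Q : Finset ℕ) (p q : ℕ) (F F' ξ ζ : Finset ℕ → ℝ),
  1 ≤ X → (∀ l ∈ Q, l.Prime ∧ w < l) → p.Prime → q.Prime → Rep (Q.erase p) F ξ → Rep (Q.erase q) F' ζ →
  ∀ c : Finset ℕ → Finset ℕ → ℤ, (∀ D ⊆ Q.erase p, ∀ E ⊆ Q.erase q, D ∩ E ⊆ Nn Q p q →
    Cs w p q a₀ D E (c D E)) →
  ((EN (primorial w) a₀ (2 * X) (fun a => F (Az Q p a) * F' (Az Q q a)) : ℝ) : ℂ) =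
    ((2 * X / (primorial w : ℝ) * ∑ D ∈ (Q.erase p).powerset, ∑ E ∈ (Q.erase q).powerset,
      ξ D * ζ E * rho (Nn Q p q) D E : ℝ) : ℂ) + Er w X Q p q ξ ζ c

/-! ## Part C: the small primes -/

/-- **RPS** (medium short). As `S3_Sg`, `S3_mul`, `S3_count` (Pool/Agent/helper13/AA/S3.lean). `Sg Q R A = ∑_(D ⊆ A) ξ D`, `ξ D = ∑_(K ∈ Sub Q R, D ⊆ K) ∏_(l ∈ D) (-l) / ph K`: `0` unless `D ⊆ Q`, `pr D ≤ R`, and `∑ |ξ D| ≤ R (1 + log R)`. Square: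
`θ M = ∑_(D ∪ E = M) ξ D ξ E`. -/
def RPS_stmt : Prop := ∀ (w Z : ℕ), 2 ≤ w → ∀ Q ⊆ Qs w Z, ∀ R : ℝ, 1 ≤ R → ∃ θ : Finset ℕ → ℝ,
  Rep Q (fun A => Sg Q R A ^ 2) θ ∧ (∀ D, |θ D| ≤ (R * (1 + Real.log R)) ^ 2) ∧
    ∀ D, θ D ≠ 0 → D ⊆ Q ∧ pr D ≤ R ^ 2

/-- **RKN** (Rankin; medium). `s = 1 / log Z`. `1_(pr K > y) ≤ (pr K / y) ^ s`, so the sum is `≤ y ^ (-s) ∏_(l ∈ Q) (1 + l ^ s / (l - 1))`, and `(1 + l ^ s / (l - 1)) / (1 + 1 / (l - 1)) = 1 + (l ^ s - 1) / l ≤ exp ((l ^ s - 1) / l)`,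
`l ^ s - 1 ≤ 2 s log l` as `s log l ≤ 1`; `∑_(l ≤ Z) log l / l ≤ log Z + C` (`mert_log`, Pool/Agent/helper25/AA/N3.lean, `y = 1`). -/
def RKN_stmt : Prop := ∃ K : ℝ, 1 ≤ K ∧ ∀ (w Z : ℕ), 2 ≤ w → 2 ≤ Z → ∀ Q ⊆ Qs w Z, ∀ y : ℝ, 0 < y →
  ∑ H ∈ Q.powerset.filter (fun H => y < pr H), 1 / ph H ≤
    K * y ^ (-(1 / Real.log Z)) * ∏ l ∈ Q, (1 + 1 / ((l : ℝ) - 1))

/-- **SGL** (medium). `Gs (Q.erase g) R - Gs (Q.erase g) (R/g) ≤ ∑_(K ⊆ Q, R/g < pr K ≤ R) 1/ph K`. For these `K` `log (pr K) ≥ log R / 2` (`g ≤ Z`, `Z² ≤ R`), so this is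
`≤ (2 / log R) ∑_K ∑_(l ∈ K) log l / ph K = (2 / log R) ∑_(K') (1 / ph K') ∑_l log l / (l - 1)`, `K' = K.erase l`, `l ∈ Q`, `R / (g pr K') < l ≤ R / pr K'`: the inner sum is `≤ log g + C` (`mert_log`; the part
`log l / (l (l - 1))` converges; if `R / (g pr K') < 1` use `y = 1`) and is empty unless `pr K' > R / (g Z) ≥ R / Z²`. -/
def SGL_stmt : Prop := ∃ C : ℝ, 1 ≤ C ∧ ∀ (w Z : ℕ), 2 ≤ w → 2 ≤ Z → ∀ Q ⊆ Qs w Z, ∀ R : ℝ, (Z : ℝ) ^ 2 ≤ R →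
  ∀ g ∈ Q, Gs (Q.erase g) R - Gs (Q.erase g) (R / g) ≤
    2 / Real.log R * (Real.log g + C) *
      ∑ H ∈ Q.powerset.filter (fun H => R / (Z : ℝ) ^ 2 < pr H), 1 / ph H

/-- **UBL** (From RKN, SGL; medium). `Z = ⌊X ^ η⌋₊`, `R = X ^ ρ`, `ρ = 0.00001`, `η ≤ ρ / 10`, `Π = ∏_(l ∈ Q) (1 + 1 / (l - 1)) = ∑_(K ⊆ Q) 1 / ph K`. `Ex_Sg_one`, SGL, RKN with `y = R / Z²`: `y ^ (- 1 / log Z) = R ^ (-1 / log Z) e² ≤ e² exp (- ρ / η)`. So the left side is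
`≤ (2 / (ρ log X)) K e² exp (- ρ / η) Π ∑_(g ≤ Z) (log g + C) / g ≤ C' (η / ρ) exp (- ρ / η) Π` (`mert_log`; `1 / g ≤ 2 log g / g`). And `Gs Q R ≥ Π (1 - K R ^ (- 1 / log Z)) ≥ Π / 2` (RKN with `y = R`) for small `η`. -/
def UBL_stmt : Prop := ∀ eps : ℝ, 0 < eps → ∃ η₀ : ℝ, 0 < η₀ ∧ ∀ η : ℝ, 0 < η → η ≤ η₀ → ∃ X₀ : ℝ, ∀ X : ℝ,
  X₀ ≤ X → ∀ w : ℕ, 2 ≤ w → ∀ p : ℕ,
  ∑ g ∈ (Qm w X η).erase p, Ex ((Qm w X η).erase p)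
      (fun A => if g ∈ A then Sg ((Qm w X η).erase p) (Rr X) A ^ 2 else 0) ≤
    eps * Gs ((Qm w X η).erase p) (Rr X)

/-- **GPR** (short). `Gs Q R = Gs (Q.erase p) R + ∑_(p ∈ K)` and the second part is `≤ (1 / (p - 1)) Gs (Q.erase p) R` (remove `p` from `K`). `S1_Gs_mono` for the other inequality. `1 ≤` from `K = ∅`. -/
def GPR_stmt : Prop := ∀ (w Z : ℕ), 2 ≤ w → ∀ Q ⊆ Qs w Z, ∀ (R : ℝ) (p : ℕ), 1 ≤ R → w < p →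
  1 ≤ Gs (Q.erase p) R ∧ Gs (Q.erase p) R ≤ Gs Q R ∧ (1 - 2 / w) * Gs Q R ≤ Gs (Q.erase p) R

/-- **COR** (short). As `corr_le` (Pool/Agent/helper51/AA/S5.lean) with absolute values: `corr_id`, `|kap N K| |Th| |Th| ≤ c₁ c₂ ∏_(l ∈ K) 81 (..) / (l - 1)²`, sum over `K ⊆ (Q.erase p) ∩ (Q.erase q)`. -/
def COR_stmt : Prop := ∀ (Q : Finset ℕ), (∀ l ∈ Q, 2 ≤ l) → ∀ (p q : ℕ) (ξ ζ : Finset ℕ → ℝ) (c₁ c₂ : ℝ),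
  0 ≤ c₁ → 0 ≤ c₂ → (∀ K ⊆ Q.erase p, |Th (Q.erase p) ξ K| ≤ c₁ * (9 ^ K.card / ph K)) →
  (∀ K ⊆ Q.erase q, |Th (Q.erase q) ζ K| ≤ c₂ * (9 ^ K.card / ph K)) →
  |∑ D ∈ (Q.erase p).powerset, ∑ E ∈ (Q.erase q).powerset, ξ D * ζ E * rho (Nn Q p q) D E| ≤ c₁ * c₂ * Cf Q p q

/-! ## Part D: the large primes -/

/-- **LRG** (medium). `T = ∏_(l ∈ Ql) (1 + 4 / l) ≤ C (log X) ^ 4` (`mert_inv` or `mert_log`). (a) the difference is the sum over the `K ∋ p`, `≤ (2 / p) ∏ (1 + 1 / l)`, and `p > X ^ η` if `p ∈ Ql`. (b) `Vx (Ql.erase p) ξ = Ex (Ql.erase p) (U ξ) ≥ 0`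
(`Rep_Ex` with `L = ∅`, `Ex_nonneg`). (c) `∑ ∑ ξ D ξ E (rho D E - 1 / (pr D pr E))`: the terms with `D ∩ E = ∅` vanish; the others are `≤ 4 (rho D E + 1 / (pr D pr E))`; choose `l ∈ D ∩ E`:
`∑_(D, E ∋ l) 1 / (pr D pr E) ≤ (1 / l²) ∏ (1 + 1 / l')²` and `∑_(D, E ∋ l) 1 / pr (D ∪ E) ≤ (1 / l) ∏ (1 + 3 / l')`, the latter only for `l ∈ Nn` (`≤ log X` values as `∏_(l ∈ Nn) l ∣ p² - q²`), `l > X ^ η`, `∑_(l > y) 1 / l² ≤ 2 / y`. -/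
def LRG_stmt : Prop := ∀ η : ℝ, 0 < η → η ≤ 1 / 10 → ∃ X₀ : ℝ, ∀ X : ℝ, X₀ ≤ X → ∀ ξ : Finset ℕ → ℝ,
  AdmL X η ξ → ∀ p q : ℕ, p.Prime → q.Prime → p ≠ q → (p : ℝ) ≤ X → (q : ℝ) ≤ X →
  |Vx ((Ql X η).erase p) ξ - Vx (Ql X η) ξ| ≤ X ^ (-(η / 2)) ∧ 0 ≤ Vx ((Ql X η).erase p) ξ ∧
  |∑ D ∈ ((Ql X η).erase p).powerset, ∑ E ∈ ((Ql X η).erase q).powerset,
      ξ D * ξ E * rho (Nn (Ql X η) p q) D E -
    Vx ((Ql X η).erase p) ξ * Vx ((Ql X η).erase q) ξ| ≤ X ^ (-(η / 2))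

/-- the function of the set of all primes dividing `a p² - 1` in the range of the sieve -/
noncomputable def Fp (w : ℕ) (X η : ℝ) (ξ : Finset ℕ → ℝ) (p : ℕ) (A : Finset ℕ) : ℝ :=
  Sg ((Qm w X η).erase p) (Rr X) (A ∩ Qm w X η) ^ 2 * U ξ (A ∩ Ql X η)

/-- its coefficients -/
noncomputable def xp (w : ℕ) (X η : ℝ) (ξ θ : Finset ℕ → ℝ) (p : ℕ) (D : Finset ℕ) : ℝ :=
  if D ⊆ (Qm w X η ∪ Ql X η).erase p then θ (D ∩ Qm w X η) * ξ (D ∩ Ql X η) else 0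

/-- **CFW** (From RPS; medium). `θ` from RPS for `(Qm).erase p`, `R = X ^ 0.00001`, `R² (1 + log R)² * 2 ≤ X ^ 0.0001`. `Rep`: the subsets of `A` are the unions of subsets of `A ∩ Qm` and `A ∩ Ql` (`Qm`, `Ql` are disjoint). `Cof`: with the cut `K₁` of
`K = D ∩ Ql` take `D₁ = K₁ ∪ (D ∩ Qm)`, `pr D₁ ≤ X ^ 0.445 R²`. The last claim: `Az (Qm ∪ Ql) p a ∩ Qm = Az Qm p a`. -/
def CFW_stmt : Prop := ∀ w : ℕ, 2 ≤ w → ∀ η : ℝ, 0 < η → η ≤ 1 / 10 → ∃ X₀ : ℝ, ∀ X : ℝ, X₀ ≤ X → ∀ ξ : Finset ℕ → ℝ,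
  AdmL X η ξ → ∀ p : ℕ, ∃ θ : Finset ℕ → ℝ, Rep ((Qm w X η).erase p) (fun A => Sg ((Qm w X η).erase p) (Rr X) A ^ 2) θ ∧
    (∀ D, θ D ≠ 0 → D ⊆ (Qm w X η).erase p ∧ pr D ≤ Rr X ^ 2) ∧
    Rep ((Qm w X η ∪ Ql X η).erase p) (Fp w X η ξ p) (xp w X η ξ θ p) ∧ Cof w X p (xp w X η ξ θ p) ∧
    ∀ a : ℤ, fw w X η ξ p a = Fp w X η ξ p (Az (Qm w X η ∪ Ql X η) p a)

/-- **FAC** (medium short). `D = D' ∪ D''` with `D' ⊆ Qm`, `D'' ⊆ Ql` (disjoint): `pr D = pr D' pr D''`, `rho N D E = rho N' D' E' * rho N'' D'' E''` (`N' = N ∩ Qm`, `(Qm ∪ Ql).erase p` is the disjoint union of the two). -/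
def FAC_stmt : Prop := ∀ (Q₁ Q₂ : Finset ℕ), Disjoint Q₁ Q₂ → (∀ l ∈ Q₁ ∪ Q₂, 2 ≤ l) → ∀ (p q : ℕ) (θ θ' ξ ξ' : Finset ℕ → ℝ),
  (∑ D ∈ ((Q₁ ∪ Q₂).erase p).powerset, θ (D ∩ Q₁) * ξ (D ∩ Q₂) / pr D =
    (∑ D ∈ (Q₁.erase p).powerset, θ D / pr D) * ∑ D ∈ (Q₂.erase p).powerset, ξ D / pr D) ∧
  ∑ D ∈ ((Q₁ ∪ Q₂).erase p).powerset, ∑ E ∈ ((Q₁ ∪ Q₂).erase q).powerset,
      (θ (D ∩ Q₁) * ξ (D ∩ Q₂)) * (θ' (E ∩ Q₁) * ξ' (E ∩ Q₂)) * rho (Nn (Q₁ ∪ Q₂) p q) D E =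
    (∑ D ∈ (Q₁.erase p).powerset, ∑ E ∈ (Q₁.erase q).powerset, θ D * θ' E * rho (Nn Q₁ p q) D E) *
      ∑ D ∈ (Q₂.erase p).powerset, ∑ E ∈ (Q₂.erase q).powerset, ξ D * ξ' E * rho (Nn Q₂ p q) D E

/-! ## Part E: moments -/

/-- **OFP** (From ERR, CEX, PAI, CFW, FAC, COR, LRG, GPR; medium long). One pair. `Q = Qm ∪ Ql`, `fw p a = Fp (Az Q p a)` (CFW), PAI with the coefficients `xp`, ERR (`c` from CEX). Main term (FAC): `M_s M_l`. `G_p = Gs (Qm.erase p) R`. `Th_Ff` with `c = 1`, `v = 0` (`Ff Q R 1 0 = Sg ^ 2`)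
gives `|Th| ≤ 2 G_p 9 ^ |K| / ph K`, so by `corr_le`, `Th_empty`, `Ex_Sg_empty`: `M_s ≤ G_p G_q + 4 G_p G_q (Cf - 1)` and by COR `|M_s| ≤ 4 G_p G_q Cf`. LRG: `M_l = V_p V_q + O(X ^ (-η/2))`, `0 ≤ V_p ≤ V + X ^ (-η/2)`. So
`M_s M_l ≤ V_p V_q G_p G_q (1 + 4 (Cf - 1)) + 4 G_p G_q Cf X ^ (-η/2)`, `G_p ≤ G`, `V_p V_q ≤ (V + X ^ (-η/2))²`, `V ≤ 1`, and `14 X ^ (-η/2) ≤ X ^ (-η/3)`. `1 ≤ Cf`. -/
def OFP_stmt : Prop := ∀ w : ℕ, 10 ≤ w → ∀ η : ℝ, 0 < η → η ≤ 1 / 10 → ∃ X₀ : ℝ, ∀ X : ℝ, X₀ ≤ X →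
  ∀ p q : ℕ, p.Prime → q.Prime → p ≠ q → w < p → w < q → (p : ℝ) ≤ X ^ (0.0001 : ℝ) →
  (q : ℝ) ≤ X ^ (0.0001 : ℝ) → ∀ (a₀ : ℤ) (ξ : Finset ℕ → ℝ), AdmL X η ξ → 0 ≤ Vx (Ql X η) ξ →
  Vx (Ql X η) ξ ≤ 1 →
  EN (primorial w) a₀ (2 * X) (fun a => fw w X η ξ p a * fw w X η ξ q a) ≤
    2 * X / (primorial w : ℝ) * Gs (Qm w X η) (Rr X) ^ 2 *
      (Vx (Ql X η) ξ ^ 2 * (1 + 4 * (Cf (Qm w X η) p q - 1)) + Cf (Qm w X η) p q * X ^ (-(η / 3))) +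
    X ^ (0.9998 : ℝ)

/-- **OFF** (From OFP; medium). Sum over the pairs: `pair_avg` (project AA) for `Q = Qm` gives `∑ ∑ (Cf - 1) ≤ (C / w) |Ps|²`. `V ≤ 20 η`, `G ≥ 1`, `w ≥ w₀(eps)`, `X` large: `X ^ 0.9998 ≤ (eps / 4) (2 X / W) η²`. (`P ≥ P₀`: `P → ∞` as `P ≥ C log X log log X`, `C = 1`.) `K4_gt`, `K4_prime`. -/
def OFF_stmt : Prop := ∀ eps : ℝ, 0 < eps → ∃ w₀ : ℕ, ∀ w : ℕ, w₀ ≤ w → ∀ η : ℝ, 0 < η → η ≤ 1 / 20 →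
  ∃ X₀ : ℝ, ∀ X P : ℝ, X₀ ≤ X → Rg2 1 X P → ∀ (a₀ : ℤ) (b : ℕ), b.Coprime (primorial w) →
  ∀ ξ : Finset ℕ → ℝ, AdmL X η ξ → 0 ≤ Vx (Ql X η) ξ → Vx (Ql X η) ξ ≤ 20 * η →
  ∑ p ∈ Ps (primorial w) b P, ∑ q ∈ (Ps (primorial w) b P).erase p,
      EN (primorial w) a₀ (2 * X) (fun a => fw w X η ξ p a * fw w X η ξ q a) ≤
    2 * X / (primorial w : ℝ) *
      ((((Ps (primorial w) b P).card : ℝ) * Gs (Qm w X η) (Rr X) * Vx (Ql X η) ξ) ^ 2 +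
        eps * (((Ps (primorial w) b P).card : ℝ) * Gs (Qm w X η) (Rr X) * η) ^ 2)

/-- **FMO** (From CEX, MEA, CFW, FAC, LRG, GPR; medium). First moments, exact. MEA for `Q = Qm ∪ Ql`, `F = Fp`, `ξ = xp`, `L = ∅` resp. `{g}` (`W X ^ 0.5531 X ^ 0.1 ≤ 2 X`); FAC; `Rep_Ex`, `Ex_Sg_empty`: the small factor is `G_p` resp. `Ex (Sg ^ 2 1_g)`. For `L = {g}`, `g ∈ Qm.erase p`:
`∑_D xp D / pr (D ∪ {g})` factors as in FAC (apply FAC to `θ' D = θ D / pr (D ∪ {g}) * pr D`). -/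
def FMO_stmt : Prop := ∀ w : ℕ, 10 ≤ w → ∀ η : ℝ, 0 < η → η ≤ 1 / 10 → ∃ X₀ : ℝ, ∀ X : ℝ, X₀ ≤ X →
  ∀ p : ℕ, p.Prime → w < p → (p : ℝ) ≤ X ^ (0.0001 : ℝ) → ∀ (a₀ : ℤ) (ξ : Finset ℕ → ℝ), AdmL X η ξ →
  EN (primorial w) a₀ (2 * X) (fw w X η ξ p) =
    2 * X / (primorial w : ℝ) * (Gs ((Qm w X η).erase p) (Rr X) * Vx ((Ql X η).erase p) ξ) ∧
  ∀ g ∈ (Qm w X η).erase p,
    EN (primorial w) a₀ (2 * X) (fun a => if g ∈ Az (Qm w X η) p a then fw w X η ξ p a else 0) =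
      2 * X / (primorial w : ℝ) * (Ex ((Qm w X η).erase p)
        (fun A => if g ∈ A then Sg ((Qm w X η).erase p) (Rr X) A ^ 2 else 0) * Vx ((Ql X η).erase p) ξ)

/-- **FST** (From UBL, FMO, LRG, GPR, CFW; medium). `fw - ft ≤ ∑_(g ∈ Qm.erase p) 1_(g ∈ Az) fw + 1_(|a| > X²) fw` (`Az Qm p a ⊆ Qm.erase p`), so by FMO, UBL `EN (fw - ft) ≤ eps' (2 X / W) G_p V_p + tail`, the tail: `0 ≤ fw ≤ ∑ |xp| ≤ X ^ 0.0001 X ^ 0.5531` (number of `D` with `pr D ≤ y`: `≤ y`),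
`∑_(|a| > X²) Fz ≤ 2 (2X)² / X²` (`Fz_le_sq`), so tail `≤ X ^ 0.6`. `V_p ≤ 21 η`. `G_p V_p ≥ (1 - 2/w) G (V - X ^ (-η/2)) ≥ G (V - 40 η / w - X ^ (-η/2))`. -/
def FST_stmt : Prop := ∀ eps : ℝ, 0 < eps → ∃ η₀ : ℝ, 0 < η₀ ∧ ∀ η : ℝ, 0 < η → η ≤ η₀ → ∃ w₀ : ℕ, ∀ w : ℕ, w₀ ≤ w →
  ∃ X₀ : ℝ, ∀ X : ℝ, X₀ ≤ X → ∀ p : ℕ, p.Prime → w < p → (p : ℝ) ≤ X ^ (0.0001 : ℝ) →
  ∀ (a₀ : ℤ) (ξ : Finset ℕ → ℝ), AdmL X η ξ → 0 ≤ Vx (Ql X η) ξ → Vx (Ql X η) ξ ≤ 20 * η →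
  2 * X / (primorial w : ℝ) * (Gs (Qm w X η) (Rr X) * (Vx (Ql X η) ξ - eps * η)) ≤
    EN (primorial w) a₀ (2 * X) (ft w X η ξ p)

/-- **DIA** (From FMO, LRG, GPR; medium). If `ft p a ≠ 0`: `Sg (∅) = Gs (Qm.erase p) R ≤ G`; `T = Az Ql p a` is a set of primes `> X ^ η` whose product divides `a p² - 1 ≠ 0`, `|a p² - 1| ≤ X ^ 2.1`, so `#T ≤ 2.1 / η` and `U ξ T ≤ 2 * 2 ^ #T`. So `0 ≤ ft ≤ S = G² 2 ^ (1 + 2.1 / η)`,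
`EN (ft²) ≤ S EN (fw) ≤ S (2 X / W) G 21 η`. The sum over `p` is `≤ eps (2 X / W) (|Ps| G η)²` if `|Ps| ≥ 21 * 2 ^ (1 + 2.1 / η) G / (eps η)`. `G ≤ Aw w log X ≤ log X` (`Gs_le`), `|Ps| ≥ P / (32 φ(W) log P)` (`Ps_lower`), `P / log P ≥ (C / 2) log X` (`K3_growth`, Pool/Agent/helper23/AA/K3.lean). -/
def DIA_stmt : Prop := ∀ eps : ℝ, 0 < eps → ∀ w : ℕ, 10 ≤ w → ∀ η : ℝ, 0 < η → η ≤ 1 / 20 → ∃ C X₀ : ℝ, 0 < C ∧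
  ∀ X P : ℝ, X₀ ≤ X → Rg2 C X P → ∀ (a₀ : ℤ) (b : ℕ), b.Coprime (primorial w) →
  ∀ ξ : Finset ℕ → ℝ, AdmL X η ξ → 0 ≤ Vx (Ql X η) ξ → Vx (Ql X η) ξ ≤ 20 * η →
  ∑ p ∈ Ps (primorial w) b P, EN (primorial w) a₀ (2 * X) (fun a => ft w X η ξ p a ^ 2) ≤
    eps * (2 * X / (primorial w : ℝ)) *
      (((Ps (primorial w) b P).card : ℝ) * Gs (Qm w X η) (Rr X) * η) ^ 2

/-- **CON** (From OFF, FST, DIA, CLS; medium). As `conc_of` (Pool/Agent/helper71/AA/K4.lean). `M = |Ps| G V`. `0 ≤ ft ≤ fw` (`Ql`-part: `AdmL.nn`). `EN ((∑ ft - M)²) = EN ((∑ ft)²) - 2 M EN (∑ ft) + M² EN 1`, `EN 1 = 2 X / W` (CLS with `m = W ≤ N`). `EN ((∑ ft)²) ≤` OFF + DIA. So it is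
`≤ (2 X / W) (|Ps| G)² (V² + eps' η² + eps' η² - 2 V (V - eps' η) + V²)`. `Fz (2X) a ≥ 4 / π²` for `|a| ≤ X` (Jordan's inequality `Real.mul_le_sin`), `EN_finset` for `a ∈ As` (as integers): `∑_As ≤ (π² / 4) EN`. -/
def CON_stmt : Prop := ∀ eps : ℝ, 0 < eps → ∃ η₀ : ℝ, 0 < η₀ ∧ ∀ η : ℝ, 0 < η → η ≤ η₀ → ∃ w₀ : ℕ, ∀ w : ℕ, w₀ ≤ w →
  ∃ C X₀ : ℝ, 0 < C ∧ ∀ X P : ℝ, X₀ ≤ X → Rg2 C X P → ∀ a₀ b : ℕ, b.Coprime (primorial w) →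
  ∀ ξ : Finset ℕ → ℝ, AdmL X η ξ → 0 ≤ Vx (Ql X η) ξ → Vx (Ql X η) ξ ≤ 20 * η →
  ∑ a ∈ As (primorial w) a₀ X, (∑ p ∈ Ps (primorial w) b P, ft w X η ξ p (a : ℤ) -
      ((Ps (primorial w) b P).card : ℝ) * Gs (Qm w X η) (Rr X) * Vx (Ql X η) ξ) ^ 2 ≤
    eps * (X / (primorial w : ℝ)) *
      (((Ps (primorial w) b P).card : ℝ) * Gs (Qm w X η) (Rr X) * η) ^ 2

/-! ## Part F: the weights -/

/-- **MPS** (medium). Mertens' theorem for continuous functions: by `mert_log` or `RLS.ME`/Mertens' second theorem `∑_(X^a < l ≤ X^b) 1/l → log (b/a)` (both bounds; `Pool.Agent.RLS.ME`: Pool/Agent/helper32/RLS/ME.lean, or `mertens_second`, Pool/Agent/helper22/PD/Mertens2.lean, and `mert_inv`).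
Divide `[s₁, s₂]` in `n` parts, on which `g` varies by `≤ eps` (uniform continuity). -/
def MPS_stmt : Prop := ∀ (s₁ s₂ : ℝ) (g : ℝ → ℝ), 0 < s₁ → s₁ ≤ s₂ → ContinuousOn g (Set.Icc s₁ s₂) →
  Filter.Tendsto (fun X : ℝ => ∑ l ∈ (Ioc ⌊X ^ s₁⌋₊ ⌊X ^ s₂⌋₊).filter Nat.Prime,
    g (Real.log l / Real.log X) / (l : ℝ)) Filter.atTop (nhds (∫ t in s₁..s₂, g t / t))

/-- the integral in the main inequality -/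
noncomputable def JJ : ℝ :=
  (∫ t in (0.13825 : ℝ)..0.445, (1 - t / 0.47) / (0.553 - t) / t) +
    ∫ t in (0.445 : ℝ)..0.47, (1 - t / 0.47) / (0.499 - t) / t

/-- **NUM** (medium). `(1 - t/c) / (L - t) / t` has the antiderivative `(log t - log (L - t)) / L + log (L - t) / c`. So `JJ` is a combination of logarithms of rationals; the numerical value of the left side is `0.0175`
(`log 3 / 0.553 = 1.98664`, `lamR = 1.14690`, `JJ = 1.7168`). Bounds for `log`: `Real.abs_log_sub_add_sum_range_le`, `Real.log_two_gt_d9`, or rational bounds for `exp`, or a table as in other projects. -/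
def NUM_stmt : Prop := 0.01 ≤ Real.log 3 / 0.553 - lamR * JJ ∧ 0 ≤ JJ ∧ JJ ≤ 2

/-- **WTA** (short, medium). Let `l` be as in `Pool.Agent.RLS.FIN_stmt` for the level `D = X ^ s` and the exponent `1/3` or `1/4`. `PP (X ^ η) (D ^ (1/3)) ⊆ Ql X η` if `D ^ (1/3) ≤ X ^ 0.47`. Facts for later: `U l T = ∑_(K ⊆ T ∩ PP) l K`. This row: the sets. -/
def WTA_stmt : Prop := ∀ (X η z : ℝ), 1 ≤ X → z ≤ X ^ (0.47 : ℝ) → Pool.Agent.RLS.PP (X ^ η) z ⊆ Ql X η ∧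
  (∀ l ∈ Ql X η, (l : ℝ) ≤ z → l ∈ Pool.Agent.RLS.PP (X ^ η) z) ∧
  ∀ (f : Finset ℕ → ℝ), (∀ K, f K ≠ 0 → K ⊆ Pool.Agent.RLS.PP (X ^ η) z) → ∀ T : Finset ℕ,
    U f T = ∑ K ∈ (T ∩ Pool.Agent.RLS.PP (X ^ η) z).powerset, f K ∧
    (Pool.Agent.RLS.PP (X ^ η) z ⊆ T → Vx T f = ∑ K ∈ (Pool.Agent.RLS.PP (X ^ η) z).powerset, f K / pr K)

/-- the coefficients of Richert's weights: `q` = the largest element of `K`, `q > X ^ 0.13825`, with the upper bound weights `l q` for the rest -/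
noncomputable def x3 (X : ℝ) (l : ℕ → Finset ℕ → ℝ) (K : Finset ℕ) : ℝ :=
  ∑ q ∈ K.filter (fun q : ℕ => q.Prime ∧ X ^ (0.13825 : ℝ) < (q : ℝ) ∧ (q : ℝ) ≤ X ^ (0.47 : ℝ)),
    (if ∀ l' ∈ K, l' ≤ q then (1 - Real.log q / (0.47 * Real.log X)) * l q (K.erase q) else 0)

/-- **WTB** (medium). Let `q` be the largest element of `K`; the sum over `q` has one term. `U (x3 l) T = ∑_(q ∈ T, X^0.13825 < q ≤ X^0.47) w_q ∑_(K' ⊆ T, K' < q) l q K'` (`w_q = 1 - log q / (0.47 log X) ∈ [0, 1]`); as `l q` is supported on sets of primes `≤ z_q ≤ X ^ 0.13825 < q`, the inner sum is `U (l q) T`. The same for `Vx`. -/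
def WTB_stmt : Prop := ∀ (X η : ℝ) (l : ℕ → Finset ℕ → ℝ), 1 < X → 0 < η → η ≤ 1 / 10 →
  (∀ q : ℕ, X ^ (0.13825 : ℝ) < (q : ℝ) → (q : ℝ) ≤ X ^ (0.47 : ℝ) → ∀ K, l q K ≠ 0 →
    K ⊆ Pool.Agent.RLS.PP (X ^ η) (X ^ (0.13825 : ℝ))) →
  (∀ T ⊆ Ql X η, U (x3 X l) T =
    ∑ q ∈ T.filter (fun q : ℕ => X ^ (0.13825 : ℝ) < (q : ℝ)), (1 - Real.log q / (0.47 * Real.log X)) * U (l q) T) ∧
  Vx (Ql X η) (x3 X l) = ∑ q ∈ (Ql X η).filter (fun q : ℕ => X ^ (0.13825 : ℝ) < (q : ℝ)),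
    (1 - Real.log q / (0.47 * Real.log X)) / q * Vx (Ql X η) (l q)

/-- the level for the prime `q` -/
noncomputable def Dq (X : ℝ) (q : ℕ) : ℝ :=
  if (q : ℝ) ≤ X ^ (0.445 : ℝ) then X ^ (0.553 : ℝ) / q else X ^ (0.499 : ℝ) / q

/-- **WTC** (From MPS; medium). `log_X Dq = 0.553 - t` resp. `0.499 - t` with `t = log q / log X`. So `∑_q (w_q / q) / log_X Dq` is the sum of two sums as in MPS and tends to `JJ`. Upper bound by `JJ + eps`. -/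
def WTC_stmt : Prop := ∀ eps : ℝ, 0 < eps → ∃ X₀ : ℝ, ∀ X : ℝ, X₀ ≤ X → ∀ η : ℝ, 0 < η → η ≤ 1 / 10 →
  ∑ q ∈ (Ql X η).filter (fun q : ℕ => X ^ (0.13825 : ℝ) < (q : ℝ)),
    (1 - Real.log q / (0.47 * Real.log X)) / q * (Real.log X / Real.log (Dq X q)) ≤ JJ + eps

/-- **WTS** (From MPS, NUM, WTA, WTB, WTC; medium long; uses `Pool.Agent.RLS.FIN_all`, Pool/Agent/helper31/RLS/All.lean, with `u = 0.553 / η`). `w = X ^ η`. `l₁`: upper weights of level `D' = X ^ 0.41475` (`D' ^ (1/3) = X ^ 0.13825`), `l₀`: lower weights of level `D = X ^ 0.553` (`D ^ (1/4) = X ^ 0.13825`), `l q`: upper weights of level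
`Dq X q` (`X ^ 0.029 ≤ Dq`, `Dq ^ (1/3) ≤ X ^ 0.13825`). `ξ₁ = l₁`, `ξ₂ = l₁ - l₀`, `ξ₃ = x3 X l`. `AdmL`: `ct` from `Cut` with `R = X ^ 0.445` (`/ q` for `ξ₃`, `q ≤ X ^ 0.445`; then add `q` to the first part), `S = X ^ 0.108`; for `l₁` and for `q > X ^ 0.445` with `R = D`, `S = 1`. `nn`: the inequalities for `T ∩ PP`
(WTA, WTB); `ξ₂`: if `T ∩ PP ≠ ∅`, `U l₁ ≥ 0 ≥ U l₀`, otherwise both are `1`. Main terms: `V₁ ≤ A (η / 0.41475) (1 + eps)`, `V₂ = V₁ - V₀`, `V₀ ≥ A (η / 0.553) (log 3 - eps) ≥ 0`, `V₃ ≤ A η (1 + eps) (JJ + eps)` (WTB, WTC), `3 ≤ A ≤ 4`; `V₂, V₃ ≥ 0` (`Rep_Ex`, as in LRG).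
`V₁ - V₂ - lamR V₃ = V₀ - lamR V₃ ≥ A η (0.01 - eps')` (NUM). Last claim: `U l₀ T ≤ 1` or `0` and `U (l q) T ≥ 0`, `≥ 1` if no element of `T` is `≤ X ^ 0.13825`. -/
def WTS_stmt : Prop := ∃ η₀ : ℝ, 0 < η₀ ∧ ∀ η : ℝ, 0 < η → η ≤ η₀ → ∃ X₀ : ℝ, ∀ X : ℝ, X₀ ≤ X →
  ∃ ξ₁ ξ₂ ξ₃ : Finset ℕ → ℝ, AdmL X η ξ₁ ∧ AdmL X η ξ₂ ∧ AdmL X η ξ₃ ∧
    (0 ≤ Vx (Ql X η) ξ₁ ∧ Vx (Ql X η) ξ₁ ≤ 20 * η) ∧ (0 ≤ Vx (Ql X η) ξ₂ ∧ Vx (Ql X η) ξ₂ ≤ 20 * η) ∧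
    (0 ≤ Vx (Ql X η) ξ₃ ∧ Vx (Ql X η) ξ₃ ≤ 20 * η) ∧
    0.02 * η ≤ Vx (Ql X η) ξ₁ - Vx (Ql X η) ξ₂ - lamR * Vx (Ql X η) ξ₃ ∧
    ∀ T ⊆ Ql X η, U ξ₁ T - U ξ₂ T - lamR * U ξ₃ T ≤
      if ∃ l ∈ T, (l : ℝ) ≤ X ^ (0.13825 : ℝ) then 0
      else 1 - lamR * ∑ q ∈ T, (1 - Real.log q / (0.47 * Real.log X))

/-! ## Part G: conclusion -/

/-- **PTW** (medium). Let `A = Az Qm p a`. If `A ≠ ∅` the left side is `0`. Otherwise it is `Gs (Qm.erase p) R ^ 2 (U₁ - U₂ - lamR U₃)(T)`, `T = Az Ql p a` (`Sg` of the empty set is `Gs`; `1 ≤ a ≤ X ≤ X²`), `Gs (Qm.erase p) ≤ G`. If some `l ∈ T` is `≤ X ^ 0.13825`: `≤ 0`. Otherwise all prime factors of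
`n = a p² - 1` are `> X ^ 0.13825`: primes `≤ w` by the hypothesis on the class, the others by `A = ∅` and `T`. Each term of the sum over `T` is `≥ 0`, so the factor is `≤ 1`. If `n` has at most two prime factors, `p ∈ Gp2`. If it has `r ≥ 3` (distinct, since no square `l²`, `l > X ^ 0.13`, divides `n`): the prime factors not in
`T` are `> X ^ 0.47` and contribute negatively, so `∑_(q ∈ T) (1 - log q / (0.47 log X)) ≥ r - log n / (0.47 log X) ≥ 3 - 1.0002 / 0.47 = 1 / lamR` (`n ≤ X ^ 1.0002`), the factor is `≤ 0`. Compare `L1_large`, `L1_point` (project AA). -/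
def PTW_stmt : Prop := ∀ w : ℕ, 10 ≤ w → ∀ η : ℝ, 0 < η → η ≤ 1 / 20 → ∃ X₀ : ℝ, ∀ X P : ℝ, X₀ ≤ X → P ≤ X ^ (0.0001 : ℝ) →
  ∀ a₀ b : ℕ, (∀ l : ℕ, l.Prime → l ≤ w → ¬ (a₀ * b ^ 2 ≡ 1 [MOD l])) →
  ∀ ξ₁ ξ₂ ξ₃ : Finset ℕ → ℝ, (∀ T ⊆ Ql X η, U ξ₁ T - U ξ₂ T - lamR * U ξ₃ T ≤
      if ∃ l ∈ T, (l : ℝ) ≤ X ^ (0.13825 : ℝ) then 0
      else 1 - lamR * ∑ q ∈ T, (1 - Real.log q / (0.47 * Real.log X))) →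
  ∀ a ∈ As (primorial w) a₀ X, ∀ p ∈ Ps (primorial w) b P, w < p →
  (∀ l : ℕ, l.Prime → X ^ (0.13 : ℝ) < (l : ℝ) → ¬ (l ^ 2 ∣ a * p ^ 2 - 1)) →
  ft w X η ξ₁ p (a : ℤ) - ft w X η ξ₂ p (a : ℤ) - lamR * ft w X η ξ₃ p (a : ℤ) ≤
    if p ∈ Gp2 a P (X ^ (0.13 : ℝ)) then Gs (Qm w X η) (Rr X) ^ 2 else 0

/-- **PCL** (From CON, WTS, PTW; medium long). As `per_class_of` (Pool/Agent/helper17/AA/L2.lean). Choose `η`, then `w`. Let `Lam = |Ps| G η`, `τ = 0.001`. CON for `ξ₁, ξ₂, ξ₃` with `eps' = eps τ² / 10`: except for `(3/10) eps X / W` of the `a` all three sums are within `τ Lam` of their means (Chebyshev, `L1_cheb`). `L1_bad_count` (`δ = 0.13`) summed over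
`p ≤ P`: except for `(eps / 10) X / W` of the `a` no `l²`, `l > X ^ 0.13`, divides some `a p² - 1`. For the other `a`: `∑_p (ft₁ - ft₂ - lamR ft₃) ≥ |Ps| G 0.02 η - (2 + lamR) τ Lam ≥ 0.01 Lam` and `≤ G² #(Gp2)` (PTW; `Gp2 ∩ Ps`). So `#Gp2 ≥ 0.01 |Ps| η / G`, `G ≤ Aw w log X` (`Gs_le`), `|Ps| ≥ P / (32 φ(W) log P)` (`Ps_lower`). -/
def PCL_stmt : Prop := ∀ eps : ℝ, 0 < eps → ∃ w : ℕ, 10 ≤ w ∧ ∃ c C X₀ : ℝ, 0 < c ∧ 0 < C ∧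
  ∀ X P : ℝ, X₀ ≤ X → Rg2 C X P → ∀ a₀ b : ℕ, b.Coprime (primorial w) →
  (∀ l : ℕ, l.Prime → l ≤ w → ¬ (a₀ * b ^ 2 ≡ 1 [MOD l])) →
  ((((As (primorial w) a₀ X).filter (fun a => (((Gp2 a P (X ^ (0.13 : ℝ))).card : ℕ) : ℝ) <
    c * P / (Real.log P * Real.log X))).card : ℕ) : ℝ) ≤ eps * (X / (primorial w : ℝ))

/-- **FNL** (From PCL; medium). As `final_of` (Pool/Agent/helper79/AA/W1.lean or where `final_of` is): for every class `a₀` modulo `W`, `a₀` even, `a₀ ≢ 1` modulo `3`, there is `b` prime to `W` with `a₀ b² ≢ 1` modulo `l` for all `l ≤ w` (`b = 1` modulo `l` or `b = 2`; `l = 2`, `3`: any `b`). Sum over the `W` classes. -/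
def FNL_stmt : Prop := ∀ eps : ℝ, 0 < eps → ∃ c C X₀ : ℝ, 0 < c ∧ 0 < C ∧
  ∀ X P : ℝ, X₀ ≤ X → C * Real.log X * Real.log (Real.log X) ≤ P → P ≤ X ^ (0.0001 : ℝ) →
  ((((Icc 1 ⌊X⌋₊).filter (fun a => a % 2 = 0 ∧ a % 3 ≠ 1 ∧
    (((Gp2 a P (X ^ (0.13 : ℝ))).card : ℕ) : ℝ) < c * P / (Real.log P * Real.log X))).card : ℕ) : ℝ) ≤ eps * X

end Pool.Agent.PT
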